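import Pool.Agent.TH563.UV.Crit2

/-!
# Critical points, uniformly in the number of factors
-/

set_option autoImplicit false

namespace Pool.Agent.TH563.UV

open Filter Topology Metric Set
open Pool.Agent.W711.HT hiding XX
open Pool.Agent.W293.HT
open scoped Real

/-- on the real axis -/
theorem real_axis {ρ τ c C : ℝ} {G : ℂ → ℂ} (hG : GH ρ τ c C G) (hτ : 0 < τ) (hρ0 : 0 < ρ) :
    ∀ x : ℝ, |x| ≤ ρ → (G x).re ≤ (G 0).re - c / 2 * x ^ 2 := by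
  intro x hx
  have hr2 : ∀ x : ℝ, |x| ≤ ρ → (x : ℂ) + (0 : ℝ) * Complex.I ∈ Rc (2 * ρ) (2 * τ) := by
    intro x hx
    refine ⟨?_, ?_⟩
    · simpa using lt_of_le_of_lt hx (by linarith)
    · simpa using hτ
  have h1 := quad_bound (f := fun x : ℝ => (G (x + (0 : ℝ) * Complex.I)).re)
    (f' := fun x : ℝ => (deriv G (x + (0 : ℝ) * Complex.I)).re)
    (f'' := fun x : ℝ => (deriv (deriv G) (x + (0 : ℝ) * Complex.I)).re) (r := ρ) (c := c)
    (x0 := 0)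
    (fun x hx => hasDerivAt_line
      (hG.da (Rc_mono (by linarith) (by linarith) (hr2 x hx))).hasDerivAt)
    (fun x hx => hasDerivAt_line
      (hG.dda (Rc_mono (by linarith) (by linarith) (hr2 x hx))).hasDerivAt)
    (fun x hx => hG.d2 _ (hr2 x hx)) (by simpa using hρ0.le)
    (by
      show (deriv G ((0 : ℝ) + (0 : ℝ) * Complex.I)).re = 0
      simp [hG.d0 hρ0 hτ]) hx
  simpa using h1

theorem cpu (hFIX : S_FIX) : S_CPU := by
  intro ρ τ κ c s dl hK r₀ hr₀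
  obtain ⟨C₀, hC₀⟩ := hK.sbd
  have hρ0 := hK.hρ.1
  have hρ1 := hK.hρ.2
  have hτ0 := hK.hτ.1
  have hτρ := hK.hτ.2
  have hκ := hK.hκ.1
  have hc := hK.hc
  have hpi := Real.pi_pos
  have hU := isOpen_Rc (3 * ρ) (3 * τ)
  have h0 : (0 : ℂ) ∈ Rc (3 * ρ) (3 * τ) := zero_mem_Rc (by linarith) (by linarith)
  have hC00 : 0 ≤ C₀ := (norm_nonneg _).trans (hC₀ 0 h0 0 h0)
  obtain ⟨c', hc'⟩ : ∃ c' : ℝ, c' = c / 2 := ⟨_, rfl⟩
  have hc'0 : 0 < c' := by rw [hc']; positivity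
  obtain ⟨C', hC'⟩ : ∃ C' : ℝ, C' = 8 * (1 + 3 * C₀) / τ ^ 2 := ⟨_, rfl⟩
  have hC'1 : 1 ≤ C' := by
    rw [hC', le_div_iff₀ (by positivity)]
    nlinarith
  have hC'0 : 0 < C' := by linarith
  obtain ⟨ε₀, hε₀⟩ : ∃ ε₀ : ℝ, ε₀ = min (min (κ / 16) (c * τ ^ 2 / 16)) 1 := ⟨_, rfl⟩
  have hε0 : 0 < ε₀ := by
    rw [hε₀]; exact lt_min (lt_min (by positivity) (by positivity)) one_pos
  have hε1 : ε₀ ≤ 1 := by rw [hε₀]; exact min_le_right _ _
  have hε2 : ε₀ ≤ c * τ ^ 2 / 16 := by rw [hε₀]; exact (min_le_left _ _).trans (min_le_right _ _)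
  have hε3 : ε₀ ≤ κ / 16 := by rw [hε₀]; exact (min_le_left _ _).trans (min_le_left _ _)
  obtain ⟨R, hR, L₀, hL₀, hex⟩ := exU hFIX hτ0 hτρ hc'0 hC'1 hU
  obtain ⟨R', hR'⟩ : ∃ R' : ℝ, R' = R ^ 2 / 2 + R + C' * R ^ 2 := ⟨_, rfl⟩
  have hR'0 : 0 < R' := by rw [hR']; positivity
  obtain ⟨S, hS⟩ : ∃ S : ℝ, S = 2 * (C' * R ^ 2 / 4 + C' ^ 2 * R ^ 2 + R') := ⟨_, rfl⟩
  have hS0 : 0 < S := by rw [hS]; positivity
  obtain ⟨L₁, hL₁⟩ : ∃ L₁ : ℝ, L₁ = L₀ + (R / τ + 1) + (S / (c' * ρ ^ 2) + 1) + 16 * R' / κ +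
    2 * R' / ε₀ + R / r₀ := ⟨_, rfl⟩
  have v1 : 0 < R / τ := by positivity
  have v2 : 0 < S / (c' * ρ ^ 2) := by positivity
  have v3 : 0 < 16 * R' / κ := by positivity
  have v4 : 0 < 2 * R' / ε₀ := by positivity
  have v5 : 0 < R / r₀ := by positivity
  have hL₁0 : 0 < L₁ := by linarith
  refine ⟨ε₀, 2 * π * L₁, hε0, hε3, by positivity, ?_, ?_⟩
  · intro t F ht hF hev hcl x hx
    have g := (gh_U (t := (t : ℝ)) hK hε1 hε2 hC₀ (Nat.cast_nonneg t) hF hev (by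
      intro ψ hψ
      have := hcl ψ hψ
      rwa [Complex.ofReal_natCast])).2
    have h1 := real_axis g hτ0 hρ0 x hx
    have h2 : c / 4 * x ^ 2 * 1 ≤ c / 4 * x ^ 2 * t :=
      mul_le_mul_of_nonneg_left (by exact_mod_cast ht) (by positivity)
    linarith
  intro t F hF hev hcl a
  obtain ⟨gh1, gh2⟩ := gh_U (t := (t : ℝ)) hK hε1 hε2 hC₀ (Nat.cast_nonneg t) hF hev (by
      intro ψ hψ
      have := hcl ψ hψ
      rwa [Complex.ofReal_natCast])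
  rw [← hc', ← hC'] at gh1 gh2
  obtain ⟨A, hA⟩ : ∃ A : ℝ, A = a / (2 * π) := ⟨_, rfl⟩
  have hbig : ∀ n : ℕ, (2 * π * L₁) ^ 2 ≤ (n : ℝ) ^ 2 + (a : ℝ) ^ 2 → L₁ ≤ |A| + n := by
    intro n hn
    have h1 : (2 * π * L₁) ^ 2 ≤ ((n : ℝ) + |(a : ℝ)|) ^ 2 := by
      have : (a : ℝ) ^ 2 = |(a : ℝ)| ^ 2 := (sq_abs _).symm
      rw [this] at hn
      have : 0 ≤ (n : ℝ) * |(a : ℝ)| := by positivity
      nlinarith
    have h2 : 2 * π * L₁ ≤ (n : ℝ) + |(a : ℝ)| := by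
      apply le_of_sq_le_sq h1
      positivity
    have h3 : |A| = |(a : ℝ)| / (2 * π) := by
      rw [hA, abs_div, abs_of_pos (by positivity : (0 : ℝ) < 2 * π)]
    have h4 : (n : ℝ) ≤ 2 * π * n := by
      have : (1 : ℝ) ≤ 2 * π := by linarith [Real.pi_gt_three]
      have h5 : (0 : ℝ) ≤ n := Nat.cast_nonneg n
      nlinarith
    have h5 : 2 * π * (|A| + n) = |(a : ℝ)| + 2 * π * n := by
      rw [h3]; field_simp
    have h6 : 2 * π * L₁ ≤ 2 * π * (|A| + n) := by linarith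
    exact le_of_mul_le_mul_left h6 (by positivity)
  have hcons : ∀ L : ℝ, L₁ ≤ L → L₀ ≤ L ∧ R / L < τ ∧
      2 * (C' * R ^ 2 / 4 + C' ^ 2 * R ^ 2 + (R ^ 2 / 2 + R + C' * R ^ 2)) / L < c' * ρ ^ 2 ∧
      R' / L ≤ κ / 16 ∧ R' / L ≤ ε₀ / 2 ∧ R / L ≤ r₀ := by
    intro L hL
    have hLp : 0 < L := by linarith
    refine ⟨by linarith, ?_, ?_, ?_, ?_, ?_⟩
    · have h1 : R / τ < L := by linarith
      rw [div_lt_iff₀ hτ0] at h1
      rw [div_lt_iff₀ hLp]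
      linarith
    · rw [← hR', ← hS]
      have h1 : S / (c' * ρ ^ 2) < L := by linarith
      rw [div_lt_iff₀ (by positivity)] at h1
      rw [div_lt_iff₀ hLp]
      linarith
    · have h1 : 16 * R' / κ ≤ L := by linarith
      rw [div_le_iff₀ hκ] at h1
      rw [div_le_iff₀ hLp]
      linarith
    · have h1 : 2 * R' / ε₀ ≤ L := by linarith
      rw [div_le_iff₀ hε0] at h1
      rw [div_le_iff₀ hLp]
      linarith
    · have h1 : R / r₀ ≤ L := by linarith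
      rw [div_le_iff₀ hr₀] at h1
      rw [div_le_iff₀ hLp]
      linarith
  have hsum : ∀ ψ ∈ Rc (3 * ρ) (3 * τ), ∀ w ∈ Rc (3 * ρ) (3 * τ),
      deriv (fun w => F w + s w ψ) w = deriv F w + deriv (fun w => s w ψ) w := by
    intro ψ hψ w hw
    exact deriv_fun_add (hF.differentiableAt (hU.mem_nhds hw))
      ((s_diff1 hK hψ).differentiableAt (hU.mem_nhds hw))
  have hballsub : ball (0 : ℂ) τ ⊆ Rc (3 * ρ) (3 * τ) := fun w hw =>
    Rc_mono (by linarith) (by linarith) (mem_Rc_of_norm hτρ (by rwa [mem_ball_zero_iff] at hw))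
  refine ⟨?_, ?_⟩
  · intro hbg
    have hL := hbig (t + 1) hbg
    rw [Nat.cast_add, Nat.cast_one] at hL
    obtain ⟨L, hLe⟩ : ∃ L : ℝ, L = |A| + ((t : ℝ) + 1) := ⟨_, rfl⟩
    rw [← hLe] at hL
    obtain ⟨k0, k1, k2, k3, k4, k5⟩ := hcons L hL
    have hLp : 0 < L := by linarith
    have ht1 : (1 : ℝ) ≤ (t : ℝ) + 1 := by linarith [(Nat.cast_nonneg t : (0 : ℝ) ≤ t)]
    obtain ⟨zs, hzd, hz⟩ := hex ((t : ℝ) + 1) (fun ψ w => F w + s w ψ) ht1 gh1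
      (by
        have e1 : DifferentiableOn ℂ (fun p : ℂ × ℂ => deriv F p.1)
            (ball 0 τ ×ˢ Rc (3 * ρ) (3 * τ)) :=
          (hF.deriv hU).comp differentiableOn_fst (fun p hp => hballsub hp.1)
        have e2 := (ds_joint hK).mono (prod_mono_left (t := Rc (3 * ρ) (3 * τ)) hballsub)
        refine (e1.add e2).congr ?_
        rintro ⟨w, ψ⟩ ⟨hw, hψ⟩
        exact hsum ψ hψ w (hballsub hw))
      (by
        refine ((differentiableOn_const (deriv (deriv F) 0)).add (dds_diff hK)).congr ?_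
        intro ψ hψ
        exact dd_add hU hF (s_diff1 hK hψ) h0)
      A (by rw [← hLe]; exact k0)
    rw [← hLe] at hz
    have hz3 : ∀ ψ ∈ Rc (3 * ρ) (3 * τ), zs ψ ∈ Rc (3 * ρ) (3 * τ) := by
      intro ψ hψ
      apply hballsub
      rw [mem_ball_zero_iff]
      exact (hz ψ hψ).1.trans_lt k1
    have hcr : ∀ ψ ∈ Rc (3 * ρ) (3 * τ),
        Complex.I * A * zs ψ + Complex.I + (deriv F (zs ψ) + deriv (fun w => s w ψ) (zs ψ)) = 0 := by
      intro ψ hψ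
      rw [← hsum ψ hψ _ (hz3 ψ hψ)]
      exact (hz ψ hψ).2.1
    have hprops : ∀ ψ ∈ Rc (3 * ρ) (3 * τ), _ := fun ψ hψ =>
      crit_propsU ht1 (gh1 ψ hψ) hτ0 hτρ hρ1 hc'0 hC'1 a A hA hR (by rw [← hLe]; exact k1)
        (by rw [← hLe]; exact k2) (zs ψ) (by rw [← hLe]; exact (hz ψ hψ).1) (hz ψ hψ).2.1
    rw [← hLe] at hprops
    have hcr' : ∀ ψ ∈ Rc (3 * ρ) (3 * τ), Complex.I * a * zs ψ / (2 * π) + Complex.I +
        deriv F (zs ψ) + deriv (fun w => s w ψ) (zs ψ) = 0 := by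
      intro ψ hψ
      rw [← hcr ψ hψ, hA]
      push_cast
      ring
    have hFp : ∀ ψ ∈ Rc (3 * ρ) (3 * τ),
        HasDerivAt (fun ψ => qq a F (zs ψ) + s (zs ψ) ψ) (deriv (fun w => s (zs ψ) w) ψ) ψ := by
      intro ψ hψ
      have hzψ := hz3 ψ hψ
      have e1 : HasDerivAt zs (deriv zs ψ) ψ :=
        (hzd.differentiableAt (hU.mem_nhds hψ)).hasDerivAt
      have e2 : HasDerivAt (fun ψ => qq a F (zs ψ))
          ((Complex.I * a * zs ψ / (2 * π) + Complex.I + deriv F (zs ψ)) * deriv zs ψ) ψ :=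
        HasDerivAt.comp ψ (hasDerivAt_qq a (hF.differentiableAt (hU.mem_nhds hzψ))) e1
      have e3 : DifferentiableAt ℂ (fun p : ℂ × ℂ => s p.1 p.2) (zs ψ, ψ) :=
        hK.san.differentiableAt ((hU.prod hU).mem_nhds ⟨hzψ, hψ⟩)
      have e4 : HasDerivAt (fun ψ => s (zs ψ) ψ)
          (fderiv ℂ (fun p : ℂ × ℂ => s p.1 p.2) (zs ψ, ψ) (deriv zs ψ, 1)) ψ :=
        HasFDerivAt.comp_hasDerivAt (l := fun p : ℂ × ℂ => s p.1 p.2) (f := fun ψ => (zs ψ, ψ)) ψ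
          e3.hasFDerivAt (e1.prodMk (hasDerivAt_id ψ))
      have e5 : fderiv ℂ (fun p : ℂ × ℂ => s p.1 p.2) (zs ψ, ψ) (1, 0) =
          deriv (fun w => s w ψ) (zs ψ) :=
        ((e3.hasFDerivAt.comp_hasDerivAt (zs ψ)
          ((hasDerivAt_id (zs ψ)).prodMk (hasDerivAt_const (zs ψ) ψ))).deriv).symm
      have e6 : fderiv ℂ (fun p : ℂ × ℂ => s p.1 p.2) (zs ψ, ψ) (0, 1) =
          deriv (fun w => s (zs ψ) w) ψ :=
        ((e3.hasFDerivAt.comp_hasDerivAt ψ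
          ((hasDerivAt_const ψ (zs ψ)).prodMk (hasDerivAt_id ψ))).deriv).symm
      have e7 : ((deriv zs ψ, 1) : ℂ × ℂ) = deriv zs ψ • ((1, 0) : ℂ × ℂ) + (0, 1) := by
        ext <;> simp
      refine (e2.add e4).congr_deriv ?_
      rw [e7, map_add, map_smul, e5, e6, smul_eq_mul]
      linear_combination (deriv zs ψ) * (hcr' ψ hψ)
    have hest : ∀ ψ ∈ Rc (3 * ρ) (3 * τ),
        ‖(qq a F (zs ψ) + s (zs ψ) ψ) - F 0 - s 0 ψ‖ ≤ R' / L := by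
      intro ψ hψ
      have e1 := (hprops ψ hψ).2.2.2
      have e2 : qq a (fun w => F w + s w ψ) (zs ψ) - (F 0 + s 0 ψ) =
          (qq a F (zs ψ) + s (zs ψ) ψ) - F 0 - s 0 ψ := by
        unfold qq
        ring
      rw [← e2, hR']
      exact e1
    refine ⟨fun ψ => qq a F (zs ψ) + s (zs ψ) ψ, zs, ?_, hzd, ?_, ?_,
      fun ψ hψ => (hest ψ hψ).trans k3, ?_⟩
    · intro ψ hψ
      exact (hFp ψ hψ).differentiableAt.differentiableWithinAt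
    · intro ψ hψ
      have hψ' := neg_mem_Rc hψ
      have e1 : zs (-ψ) = zs ψ := by
        refine (hz ψ hψ).2.2 _ (hz (-ψ) hψ').1 ?_
        have e2 := (hz (-ψ) hψ').2.1
        rw [hsum (-ψ) hψ' _ (hz3 (-ψ) hψ')] at e2
        rw [hsum ψ hψ _ (hz3 (-ψ) hψ')]
        have e3 : deriv (fun w => s w (-ψ)) (zs (-ψ)) = deriv (fun w => s w ψ) (zs (-ψ)) :=
          d_congr hU (fun w hw => s_ev2 hK hw hψ) (hz3 (-ψ) hψ')
        rw [e3] at e2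
        exact e2
      show qq a F (zs (-ψ)) + s (zs (-ψ)) (-ψ) = qq a F (zs ψ) + s (zs ψ) ψ
      rw [e1, s_ev2 hK (hz3 ψ hψ) hψ]
    · intro ψ hψ
      have e1 := hest ψ hψ
      have e2 := hest 0 h0
      have e3 : (qq a F (zs ψ) + s (zs ψ) ψ) - (qq a F (zs 0) + s (zs 0) 0) -
          (s 0 ψ - s 0 0) = ((qq a F (zs ψ) + s (zs ψ) ψ) - F 0 - s 0 ψ) -
            ((qq a F (zs 0) + s (zs 0) 0) - F 0 - s 0 0) := by ring
      show ‖(qq a F (zs ψ) + s (zs ψ) ψ) - (qq a F (zs 0) + s (zs 0) 0) -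
          (s 0 ψ - s 0 0)‖ ≤ ε₀
      rw [e3]
      refine (norm_sub_le _ _).trans ?_
      linarith
    · intro ψ hψ
      obtain ⟨p1, p2, p3, -⟩ := hprops ψ hψ
      exact ⟨⟨p1, p2, (hz ψ hψ).1.trans k5⟩, p3, hcr' ψ hψ, rfl, hFp ψ hψ⟩
  · intro ht1 hbg
    have hL := hbig t hbg
    obtain ⟨L, hLe⟩ : ∃ L : ℝ, L = |A| + (t : ℝ) := ⟨_, rfl⟩
    rw [← hLe] at hL
    obtain ⟨k0, k1, k2, k3, k4, k5⟩ := hcons L hL
    have hLp : 0 < L := by linarith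
    have ht1' : (1 : ℝ) ≤ (t : ℝ) := by exact_mod_cast ht1
    obtain ⟨zs, hzd, hz⟩ := hex (t : ℝ) (fun _ w => F w) ht1' (fun ψ _ => gh2)
      ((hF.deriv hU).comp differentiableOn_fst (fun p hp => hballsub hp.1))
      (differentiableOn_const _) A (by rw [← hLe]; exact k0)
    rw [← hLe] at hz
    obtain ⟨hz1, hz2, -⟩ := hz 0 h0
    obtain ⟨p1, p2, p3, p4⟩ := crit_propsU ht1' gh2 hτ0 hτρ hρ1 hc'0 hC'1 a A hA hR
      (by rw [← hLe]; exact k1) (by rw [← hLe]; exact k2) (zs 0) (by rw [← hLe]; exact hz1) hz2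
    rw [← hLe, ← hR'] at p4
    refine ⟨zs 0, ⟨p1, p2, hz1.trans k5⟩, p3, ?_, p4.trans k3⟩
    refine Eq.trans ?_ hz2
    rw [hA]
    push_cast
    ring

/-- existence and properties of critical points -/
theorem f_CPU : S_CPU := cpu Pool.Agent.W19.HTFix.task

end Pool.Agent.TH563.UV
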