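import Pool.Agent.TH563.UV.FinU
import Pool.Agent.TH929.J29
import Pool.Agent.TH609.J30

/-!
# The expansion of the Kashaev invariants of arborescent links with crossing circles
-/

set_option autoImplicit false

namespace Pool.Agent.TH563.UV

/-- the main analytic theorem -/
theorem f_FINB : S_FINB := fin_of Pool.Agent.TH929.stepb Pool.Agent.TH609.UV.geob

end Pool.Agent.TH563.UV
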