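import Pool.Agent.TH563.UV.Arb
import Pool.Agent.TH219.J139

/-!
# Doubles of trees with crossing circles

For the double of a weighted planar tree with crossing circles the Kashaev invariants, with the
framing corrected at the circles, are nonnegative; so the expansion has a positive leading
coefficient and a real growth rate.
-/

set_option autoImplicit false

namespace Pool.Agent.TH563.UV.Arb

open Finset Filter Topology Matrix

/-- The number of crossing circles. -/
def Tree.circles : Tree → ℕ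
  | .single b _ => if b then 1 else 0
  | .join t c => t.circles + c.circles

open Pool.Agent.W719.AX (EXY)

lemma mirror_toTb (t : Tree) : toTb t.mirror = ngb (toTb t) := by
  induction t with
  | single b a => rfl
  | join t c ht hc => simp only [Tree.mirror, toTb, ngb, ht, hc]

lemma circles_to (t : Tree) : (toTb t).nb = t.circles := by
  induction t with
  | single b a => rfl
  | join t c ht hc => simp only [toTb, Tb.nb, Tree.circles, ht, hc]

lemma kb_root (N : ℕ) (hN : 1 ≤ N) (n : ℕ) :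
    kb N ^ (2 * n) * root N ^ ((4 * n : ℤ) * ((N : ℤ) ^ 2 - 1)) = 1 := by
  have hN0 : (N : ℂ) ≠ 0 := by exact_mod_cast (by omega : N ≠ 0)
  have h1 : kb N ^ 2 * root N ^ ((4 : ℤ) * ((N : ℤ) ^ 2 - 1)) = 1 := by
    unfold kb root
    rw [← Complex.exp_nat_mul, ← Complex.exp_int_mul, ← Complex.exp_add]
    have h2 : (((2 : ℕ) : ℂ) * (2 * Real.pi * Complex.I / N) +
        (((4 : ℤ) * ((N : ℤ) ^ 2 - 1) : ℤ) : ℂ) * (Real.pi * Complex.I / N)) =
        ((2 * N : ℤ) : ℂ) * (2 * Real.pi * Complex.I) := by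
      push_cast
      field_simp
      ring
    rw [h2]
    exact Complex.exp_int_mul_two_pi_mul_I _
  have h3 : root N ^ ((4 * n : ℤ) * ((N : ℤ) ^ 2 - 1)) =
      (root N ^ ((4 : ℤ) * ((N : ℤ) ^ 2 - 1))) ^ n := by
    rw [← zpow_natCast, ← _root_.zpow_mul]
    congr 1
    ring
  rw [h3, pow_mul, ← mul_pow, h1, one_pow]

/-- The Kashaev invariants of doubles are nonnegative. -/
theorem double_nonneg (s : Tree) (N : ℕ) (hN : 2 ≤ N) :
    ∃ r : ℝ, 0 ≤ r ∧ kashaev (4 * s.circles) 1 s.double N = r := by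
  obtain ⟨r, hr, h⟩ := Pool.Agent.TH219.J139.dblb (toTb s) N hN
  refine ⟨r, hr, ?_⟩
  have h1 : jones s.double N (root N) = (-1) ^ (N - 1) * kb N ^ (2 * s.circles) * r := by
    rw [jones_to, ← circles_to, ← h]
    have : toTb s.double = .br (toTb s) (ngb (toTb s)) := by
      rw [← mirror_toTb]
      rfl
    rw [this]
    rfl
  unfold kashaev
  rw [h1]
  have h2 : ((-1 : ℂ)) ^ ((1 : ℤ) * ((N : ℤ) - 1)) = (-1) ^ (N - 1) := by
    rw [one_mul, ← zpow_natCast, Nat.cast_sub (by omega : 1 ≤ N)]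
    norm_num
  have h3 : ((-1 : ℂ)) ^ (N - 1) * (-1) ^ (N - 1) = 1 := by
    rw [← mul_pow]
    norm_num
  rw [h2]
  have h4 := kb_root N (by omega) s.circles
  calc _ = ((-1 : ℂ) ^ (N - 1) * (-1) ^ (N - 1)) *
        (kb N ^ (2 * s.circles) * root N ^ ((4 * (s.circles : ℤ)) * ((N : ℤ) ^ 2 - 1))) * r := by
        ring
    _ = r := by rw [h3, h4, one_mul, one_mul]

/-- The expansion to all orders of the Kashaev invariants of arborescent links with large vertices,
and crossing circles, with a real growth rate for all doubles.  The constant `K` is absolute. -/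
theorem mainD : ∃ K : ℕ, ∀ t : Tree, 1 ≤ t.children → t.Large K →
    (∀ N : ℕ, ContinuousAt (jones t N) (root N)) ∧
    ∃ V : ℝ, IsGreatest {W : ℝ | ∃ y : AngleTree, y.tree = t ∧ IsAngle y ∧ vol y = W} V ∧
      (∀ e f : ℤ, ∃ (v : ℂ) (y : ℕ → ℂ), 2 * Real.pi * v.re = V ∧ y 0 ≠ 0 ∧
        EXY (kashaev e f t) v y) ∧
      ∀ s : Tree, t = s.double → ∃ x : ℕ → ℝ, 0 < x 0 ∧
        EXY (kashaev (4 * s.circles) 1 t) ((V / (2 * Real.pi) : ℝ) : ℂ) (fun k => (x k : ℂ)) := by
  obtain ⟨K, hM⟩ := main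
  refine ⟨K, fun t hc ht => ?_⟩
  obtain ⟨h1, V, h2, h3, -⟩ := hM t hc ht
  refine ⟨h1, V, h2, h3, ?_⟩
  rintro s rfl
  obtain ⟨v, y, hv, hy, h⟩ := h3 (4 * s.circles) 0
  have hk : ∀ N : ℕ, 2 ≤ N → kashaev (4 * s.circles) 0 s.double N =
      (-1) ^ (N - 1) * kashaev (4 * s.circles) 1 s.double N := by
    intro N hN
    unfold kashaev
    have h2 : ((-1 : ℂ)) ^ ((1 : ℤ) * ((N : ℤ) - 1)) = (-1) ^ (N - 1) := by
      rw [one_mul, ← zpow_natCast, Nat.cast_sub (by omega : 1 ≤ N)]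
      norm_num
    have h3 : ((-1 : ℂ)) ^ (N - 1) * (-1) ^ (N - 1) = 1 := by
      rw [← mul_pow]
      norm_num
    rw [h2, zero_mul, zpow_zero]
    calc _ = 1 * (root N ^ ((4 * (s.circles : ℤ)) * ((N : ℤ) ^ 2 - 1)) *
          jones s.double N (root N)) := by ring
      _ = ((-1 : ℂ) ^ (N - 1) * (-1) ^ (N - 1)) *
          (root N ^ ((4 * (s.circles : ℤ)) * ((N : ℤ) ^ 2 - 1)) *
            jones s.double N (root N)) := by rw [h3]
      _ = _ := by ring
  obtain ⟨x, hx, hx2⟩ := Pool.Agent.W719.AX.f_POS _ v y hy (by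
    filter_upwards [Filter.eventually_ge_atTop 2] with N hN
    obtain ⟨r, hr, h⟩ := double_nonneg s N hN
    refine ⟨r, hr, ?_⟩
    rw [hk N hN, h]) h
  refine ⟨x, hx, ?_⟩
  intro K
  obtain ⟨C, hC⟩ := hx2 K
  refine ⟨C, ?_⟩
  filter_upwards [hC, Filter.eventually_ge_atTop 2] with N hN h1
  have hv' : V / (2 * Real.pi) = v.re := by
    rw [← hv]
    field_simp
  have h3 : ((-1 : ℂ)) ^ (N - 1) * (-1) ^ (N - 1) = 1 := by
    rw [← mul_pow]
    norm_num
  have e2 : kashaev (4 * s.circles) 1 s.double N =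
      (-1) ^ (N - 1) * kashaev (4 * s.circles) 0 s.double N := by
    rw [hk N h1, ← mul_assoc, h3, one_mul]
  rw [e2, hv']
  have e3 : (((Real.sqrt N) ^ 3 * Real.exp (N * v.re) : ℝ) : ℂ) =
      (((Real.sqrt N) ^ 3 : ℝ) : ℂ) * Complex.exp (N * (v.re : ℂ)) := by
    push_cast
    ring
  rw [← e3]
  exact hN

end Pool.Agent.TH563.UV.Arb
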