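import Pool.Agent.TH563.UV.Final
import Pool.Agent.H550R3.Jones.SanSkein699
import Pool.Agent.H927R2.J.SanYB
import Pool.Agent.H309R4.Jones.SanI
import Pool.Agent.H22R3.J.Nat

/-!
# Arborescent links with large vertices, and crossing circles: definitions, and the expansion

An arborescent link is described by a weighted planar tree (Conway, Bonahon and Siebenmann,
Gabai): every vertex is an unknotted band with `a` half twists, the weight of the vertex, and the
bands of neighbouring vertices are plumbed.  In terms of tangles with two strands at the top and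
two at the bottom: the tangle of a rooted tree consists of `a` crossings of the two strands, `a`
being the weight of the root, and of the rotated (by a quarter turn) tangles of the children of
the root, all stacked on top of each other.  The second strand is closed, which gives the link cut
open as a (1,1)-tangle.

In addition, at every vertex there may be a crossing circle: an unknotted component of the link
which goes around the two strands of the twist region of the vertex (around the band).

Everything is defined from the R-matrix of `U_q(sl_2)`, with `v = q^{1/2}` and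
`{k} = v^k - v^{-k}`.  The Kashaev invariant is the value at `v = exp (π i / N)`, that is
`q = exp (2 π i / N)`.
-/

set_option autoImplicit false

namespace Pool.Agent.TH563.UV.Arb

open Finset Filter Topology Matrix

/-! ### Weighted trees -/

/-- Weighted rooted planar trees with crossing circles: `single b a` is one vertex of weight `a`,
with a crossing circle if `b = true`; `join t c` is the tree `t` with the tree `c` attached, by an
edge between the roots; the root of `join t c` is that of `t`, and the root of `c` is its last
child. -/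
inductive Tree
  | single (b : Bool) (a : ℤ)
  | join (t c : Tree)

namespace Tree

/-- The weight of the root. -/
def weight : Tree → ℤ
  | single _ a => a
  | join t _ => t.weight

/-- Is there a crossing circle at the root? -/
def circle : Tree → Bool
  | single b _ => b
  | join t _ => t.circle

/-- The number of children of the root. -/
def children : Tree → ℕ
  | single _ _ => 0
  | join t _ => t.children + 1

/-- There are no crossing circles. -/
def Free : Tree → Prop
  | single b _ => b = false
  | join t c => t.Free ∧ c.Free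

/-- A vertex with `n` neighbours and weight `a` is large: `K² ≤ n² + a²`; a vertex with a crossing
circle is always large.  For instance it is large if `|a| ≥ K`, or if `n ≥ K`. -/
def Big (K : ℕ) (b : Bool) (n : ℕ) (a : ℤ) : Prop :=
  b = true ∨ (K : ℤ) ^ 2 ≤ (n : ℤ) ^ 2 + a ^ 2

/-- The vertices other than the root are large. -/
def LargeBelow (K : ℕ) : Tree → Prop
  | single _ _ => True
  | join t c => t.LargeBelow K ∧ c.LargeBelow K ∧ Big K c.circle (c.children + 1) c.weight

/-- All vertices are large. -/
def Large (K : ℕ) (t : Tree) : Prop := t.LargeBelow K ∧ Big K t.circle t.children t.weight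

/-- The determinants of the two closures of the tangle, for trees without crossing circles; the
first one, `(det t).1`, is the determinant of the arborescent link (up to sign).  The link is a knot
if and only if it is odd. -/
def det : Tree → ℤ × ℤ
  | single _ a => (a, 1)
  | join t c => ((det t).1 * (det c).1 - (det t).2 * (det c).2, (det t).2 * (det c).1)

/-- The mirror image: all weights are negated. -/
def mirror : Tree → Tree
  | single b a => single b (-a)
  | join t c => join t.mirror c.mirror

/-- The double of a tree: the tree and its mirror image, their roots joined by an edge.  The link of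
a double is amphichiral. -/
def double (t : Tree) : Tree := join t t.mirror

end Tree

/-! ### The coloured Jones polynomial -/

/-- `{n} = v^n - v^{-n}` -/
noncomputable def br (v : ℂ) (n : ℤ) : ℂ := v ^ n - v ^ (-n)

/-- `{n}! = {1} {2} ⋯ {n}` -/
noncomputable def brf (v : ℂ) (n : ℕ) : ℂ := ∏ j ∈ range n, br v ((j : ℤ) + 1)

/-- The positive crossing: the R-matrix of `U_q(sl_2)` on `V_N ⊗ V_N`, `V_N` with basis
`e_0, …, e_{N-1}`, times the framing factor `v^{-(N^2-1)/2}`; `crossP N v p q` is the coefficient
of `e_{p.1} ⊗ e_{p.2}` in the image of `e_{q.1} ⊗ e_{q.2}`: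
`e_i ⊗ e_j ↦ ∑_n v^{-(N-1)(1+i+j) + 2(i-n)(j+n) + n(n-1)/2}
({j+n}! / ({j}! {n}!)) ∏_{t<n} {N-i+t} e_{j+n} ⊗ e_{i-n}`. -/
noncomputable def crossP (N : ℕ) (v : ℂ) : Matrix (Fin N × Fin N) (Fin N × Fin N) ℂ :=
  fun p q => if (p.1 : ℕ) + p.2 = q.1 + q.2 ∧ (q.2 : ℕ) ≤ p.1 then
    v ^ (-((N : ℤ) - 1) * (1 + (q.1 : ℕ) + (q.2 : ℕ)) + 2 * (p.1 : ℕ) * (p.2 : ℕ)) *
      v ^ (((p.1 : ℕ) - q.2) * ((p.1 : ℕ) - q.2 - 1) / 2) *
      (brf v p.1 / (brf v q.2 * brf v ((p.1 : ℕ) - q.2))) *
      ∏ t ∈ range ((p.1 : ℕ) - q.2), br v ((N : ℤ) - (q.1 : ℕ) + t)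
    else 0

/-- The negative crossing, inverse of `crossP N v`:
`e_i ⊗ e_j ↦ ∑_n (-1)^n v^{(N-1)(1+i+j) - 2ij - n(n-1)/2}
({i+n}! / ({i}! {n}!)) ∏_{t<n} {N-j+t} e_{j-n} ⊗ e_{i+n}`. -/
noncomputable def crossN (N : ℕ) (v : ℂ) : Matrix (Fin N × Fin N) (Fin N × Fin N) ℂ :=
  fun p q => if (p.1 : ℕ) + p.2 = q.1 + q.2 ∧ (q.1 : ℕ) ≤ p.2 then
    (-1) ^ ((p.2 : ℕ) - q.1) *
      v ^ (((N : ℤ) - 1) * (1 + (q.1 : ℕ) + (q.2 : ℕ)) - 2 * (q.1 : ℕ) * (q.2 : ℕ)) /
      v ^ (((p.2 : ℕ) - q.1) * ((p.2 : ℕ) - q.1 - 1) / 2) *
      (brf v p.2 / (brf v q.1 * brf v ((p.2 : ℕ) - q.1))) *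
      ∏ t ∈ range ((p.2 : ℕ) - q.1), br v ((N : ℤ) - (q.2 : ℕ) + t)
    else 0

/-- The coefficients of the invariant vector (cup) `∑_j cup_j e_j ⊗ e_{N-1-j}` of `V_N ⊗ V_N`; the
invariant form (cap) has the values `1 / cup_l` at `e_{N-1-l} ⊗ e_l`. -/
noncomputable def cup (N : ℕ) (v : ℂ) (j : ℕ) : ℂ :=
  (-1) ^ j * (brf v j * brf v (N - 1 - j)) * v ^ ((j : ℤ) * ((N : ℤ) - 2 - j))

/-- Rotation of a tangle by a quarter turn: the operator
`(1 ⊗ 1 ⊗ cap) (1 ⊗ A ⊗ 1) (cup ⊗ 1 ⊗ 1)` of `V_N ⊗ V_N`. -/
noncomputable def rot (N : ℕ) (v : ℂ) (A : Matrix (Fin N × Fin N) (Fin N × Fin N) ℂ) :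
    Matrix (Fin N × Fin N) (Fin N × Fin N) ℂ :=
  fun p q => cup N v p.1 / cup N v q.2 * A (p.2, Fin.rev q.2) (Fin.rev p.1, q.1)

/-- An operator of `V_N ⊗ V_N` on the first two factors of `V_N ⊗ (V_N ⊗ V_N)`. -/
def on12 {N : ℕ} (A : Matrix (Fin N × Fin N) (Fin N × Fin N) ℂ) :
    Matrix (Fin N × Fin N × Fin N) (Fin N × Fin N × Fin N) ℂ :=
  fun p q => if p.2.2 = q.2.2 then A (p.1, p.2.1) (q.1, q.2.1) else 0

/-- An operator of `V_N ⊗ V_N` on the last two factors of `V_N ⊗ (V_N ⊗ V_N)`. -/
def on23 {N : ℕ} (A : Matrix (Fin N × Fin N) (Fin N × Fin N) ℂ) :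
    Matrix (Fin N × Fin N × Fin N) (Fin N × Fin N × Fin N) ℂ :=
  fun p q => if p.1 = q.1 then A p.2 q.2 else 0

/-- The operator on `V_N ⊗ V_N` of a crossing circle: a third strand passes around the first two (it
crosses the second, the first, again the first and again the second strand), and is closed by the
quantum trace. -/
noncomputable def belt (N : ℕ) (v : ℂ) : Matrix (Fin N × Fin N) (Fin N × Fin N) ℂ :=
  fun p q => ∑ x : Fin N, v ^ ((N : ℤ) - 1 - 2 * (x : ℕ)) *
    (on23 (crossP N v) * (on12 (crossP N v) * (on12 (crossP N v) * on23 (crossP N v))))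
      (p.1, (p.2, x)) (q.1, (q.2, x))

/-- The operator on `V_N ⊗ V_N` of a vertex: `a` crossings, and the crossing circle if there is
one. -/
noncomputable def vertex (N : ℕ) (v : ℂ) (b : Bool) (a : ℤ) :
    Matrix (Fin N × Fin N) (Fin N × Fin N) ℂ :=
  (if b then belt N v else 1) * (if 0 ≤ a then crossP N v ^ a.toNat else crossN N v ^ (-a).toNat)

/-- The operator on `V_N ⊗ V_N` of the tangle of a weighted tree. -/
noncomputable def tangle (N : ℕ) (v : ℂ) : Tree → Matrix (Fin N × Fin N) (Fin N × Fin N) ℂ
  | .single b a => vertex N v b a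
  | .join t c => tangle N v t * rot N v (tangle N v c)

/-- The partial quantum trace over the second factor. -/
noncomputable def qtrace (N : ℕ) (v : ℂ) (A : Matrix (Fin N × Fin N) (Fin N × Fin N) ℂ) :
    Matrix (Fin N) (Fin N) ℂ :=
  fun i j => ∑ x : Fin N, v ^ ((N : ℤ) - 1 - 2 * (x : ℕ)) * A (i, x) (j, x)

/-- The `N`-coloured Jones polynomial of the link of `t` (all components coloured by `V_N`, the
crossing circles included; unknot `= 1`) at `q = v^2`, up to sign and a power of `v` (which depend on the framing and the orientation and have modulus one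
at `v_N`): the second strand of the tangle is closed, and the resulting scalar operator of `V_N` is
read off at the highest weight vector `e_0`. -/
noncomputable def jones (t : Tree) (N : ℕ) (v : ℂ) : ℂ :=
  if h : 0 < N then qtrace N v (tangle N v t) ⟨0, h⟩ ⟨0, h⟩ else 0

/-- `v_N = exp (π i / N)`, so that `q = v_N^2 = exp (2 π i / N)`. -/
noncomputable def root (N : ℕ) : ℂ := Complex.exp (Real.pi * Complex.I / N)

/-- The Kashaev invariant of the link of `t`, with a framing factor and a sign.  For the
integers `e`, `f` given by a diagram and an orientation (`e` corrects the framing, the sign comes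
from the unoriented calculus with `cup`, where a circle has the value `(-1)^(N-1) [N]`) this is
`J_N(L) = ⟨L⟩_N` exactly. -/
noncomputable def kashaev (e f : ℤ) (t : Tree) (N : ℕ) : ℂ :=
  (-1) ^ (f * ((N : ℤ) - 1)) * root N ^ (e * ((N : ℤ) ^ 2 - 1)) * jones t N (root N)

/-! ### The hyperbolic volume

Let `c_x` be a circle around the two strands of the twist region of the vertex `x`.  If there is no
crossing circle at `x`, then `c_x` is not a component of the link.  The link complement is the Dehn
filling, along one slope for every `x` without crossing circle, of the complement of the fully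
augmented link: all circles `c_x` together with the link in which the twist regions are untwisted
(up to one half twist).  The latter complement has the usual decomposition into ideal octahedra,
two for every edge `{x, y}` of the tree, one before and one behind the projection plane.  Each has
an ideal vertex `p` on `c_x`, the opposite one `p'` on `c_y`, and four ideal vertices `k_1, …, k_4`
on the link, in this cyclic order; the disks bounded by the circles contain the faces
`p k_1 k_2`, `p k_3 k_4`, `p' k_2 k_3`, `p' k_4 k_1`.  Each octahedron is divided into four ideal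
tetrahedra by the diagonal `k_1 k_3` (`k_2 k_4` for the one behind): two of them have the vertex
`p`, two the vertex `p'`.  In the link of `p` one sees a quadrilateral `k_1 k_2 k_3 k_4`, divided
into the triangle `k_1 k_2 k_3` with the angles `a, b, c` and the triangle `k_1 k_3 k_4` with the
angles `a', b', c'`; the same holds at `p'`, from where the quadrilateral is seen as
`k_3 k_2 k_1 k_4`.  The two octahedra of an edge are exchanged by the symmetry of the
decomposition (a half twist along `c_x`, `c_y`); the angle structures considered here are invariant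
under it.  A circle `c_x` which is a component of the link gives no condition besides those of the
edges of the decomposition (Casson and Rivin: the maximum of the volume is then the complete
structure at this cusp). -/

/-- Lobachevsky's function `Λ(x) = -∫_0^x log |2 sin t| dt`. -/
noncomputable def Lob (x : ℝ) : ℝ := -∫ t in (0 : ℝ)..x, Real.log |2 * Real.sin t|

/-- The dihedral angles of the two tetrahedra with the vertex `p`. -/
structure Angles where
  a : ℝ
  b : ℝ
  c : ℝ
  a' : ℝ
  b' : ℝ
  c' : ℝ

namespace Angles

/-- The angles are positive, and those of a tetrahedron at one ideal vertex have the sum `π`. -/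
def Positive (f : Angles) : Prop :=
  0 < f.a ∧ 0 < f.b ∧ 0 < f.c ∧ f.a + f.b + f.c = Real.pi ∧
    0 < f.a' ∧ 0 < f.b' ∧ 0 < f.c' ∧ f.a' + f.b' + f.c' = Real.pi

/-- The volume of the two tetrahedra. -/
noncomputable def vol (f : Angles) : ℝ :=
  Lob f.a + Lob f.b + Lob f.c + (Lob f.a' + Lob f.b' + Lob f.c')

/-- The rotation angle (holonomy around the circle `c_x`) of a half twist. -/
noncomputable def halfTwist (f : Angles) : ℝ := f.a + f.a' + f.b - Real.pi

/-- The rotation angle of a path through the octahedron from one disk to the next one. -/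
noncomputable def across (f : Angles) : ℝ := f.a + f.a' + f.c' - Real.pi

end Angles

/-- Trees with dihedral angles: every edge, `join t c f g`, carries the angles `f` at the root of
`t` and the angles `g` at the root of `c`. -/
inductive AngleTree
  | single (b : Bool) (a : ℤ)
  | join (t c : AngleTree) (f g : Angles)

namespace AngleTree

/-- The underlying weighted tree. -/
def tree : AngleTree → Tree
  | single b a => .single b a
  | join t c _ _ => .join t.tree c.tree

/-- The weight of the root. -/
def weight : AngleTree → ℤ
  | single _ a => a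
  | join t _ _ _ => t.weight

/-- Is there a crossing circle at the root? -/
def circle : AngleTree → Bool
  | single b _ => b
  | join t _ _ _ => t.circle

/-- The edges from the root to its children, each with the angles at the root and those at the
other end. -/
def edges : AngleTree → List (Angles × Angles)
  | single _ _ => []
  | join t _ f g => t.edges ++ [(f, g)]

end AngleTree

/-- The sum of the dihedral angles around the arc (between the two strands of the band) which
separates two neighbouring edges `x`, `y` of a vertex is `2 π`. -/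
def Gap (x y : Angles × Angles) : Prop :=
  2 * x.1.c + (x.2.a + x.2.b') + (2 * y.1.a' + (y.2.a + y.2.b')) = 2 * Real.pi

/-- The conditions at a vertex of weight `w` with the edges `l` in cyclic order: the angles around
the arcs between neighbouring edges have the sum `2 π`; so have those around the edges from the
ideal vertices on the circle to the link (the half twist has the same rotation angle at all
edges); and, if there is no crossing circle (`b = false`), the curve along which the circle is
filled has the rotation angle `2 π`. -/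
def VertexCondition (b : Bool) (w : ℤ) (l : List (Angles × Angles)) : Prop :=
  (l ++ l.take 1).IsChain Gap ∧ (∀ x ∈ l, ∀ y ∈ l, x.1.halfTwist = y.1.halfTwist) ∧
    (b = false → ∀ x ∈ l, (l.map fun y => y.1.across).sum = 2 * Real.pi + w * x.1.halfTwist)

/-- Positivity, the sum of the angles around the diagonals of the octahedra, and the conditions at
all vertices other than the root. -/
def Below : AngleTree → Prop
  | .single _ _ => True
  | .join t c f g => Below t ∧ Below c ∧ f.Positive ∧ g.Positive ∧
      f.b + f.c' + (g.b + g.c') = 2 * Real.pi ∧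
      VertexCondition c.circle c.weight ((g, f) :: c.edges)

/-- The angle structures. -/
def IsAngle (x : AngleTree) : Prop := Below x ∧ VertexCondition x.circle x.weight x.edges

/-- The volume of an angle structure: two octahedra for every edge, eight tetrahedra. -/
noncomputable def vol : AngleTree → ℝ
  | .single _ _ => 0
  | .join t c f g => vol t + vol c + 2 * (f.vol + g.vol)

/-! ### Checks of the definitions (not part of the result) -/

/-- For `N = 2` the crossings satisfy the skein relation of the Jones polynomial. -/
theorem skein (v : ℂ) (hv : v ≠ 0) (h1 : br v 1 ≠ 0) :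
    v ^ 2 • crossP 2 v - (v ^ 2)⁻¹ • crossN 2 v =
      (v - v⁻¹) • (1 : Matrix (Fin 2 × Fin 2) (Fin 2 × Fin 2) ℂ) :=
  Pool.Agent.H550R3.Jones.taskSanSkein v hv h1

/-- The two crossings are inverse to each other. -/
theorem cross_inverse (N : ℕ) (v : ℂ) (hv : v ≠ 0)
    (h : ∀ k : ℕ, 0 < k → k < N → br v k ≠ 0) :
    crossP N v * crossN N v = 1 ∧ crossN N v * crossP N v = 1 :=
  Pool.Agent.H309R4.Jones.SanI.taskSanInv Pool.Agent.H345J.taskMod Pool.Agent.H345J.taskInv
    Pool.Agent.H559R3.J.taskCross N v ⟨hv, h⟩

/-- `9_16` (Conway notation `3,3,2+`) has the determinant `39`. -/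
example : (Tree.det (.join (.join (.join (.single false 1) (.single false (-3)))
    (.single false (-3))) (.single false (-2)))).1 = -39 := by decide

/-! ### The result -/

section Conversion

open Pool.Agent.W719.AR (Fl Tr)

/-- conversion to the trees of the proof -/
def toTb : Tree → Tb
  | .single b a => .vx b a
  | .join t c => .br (toTb t) (toTb c)

/-- conversion of angles -/
def toFl (f : Angles) : Fl := ⟨f.a, f.b, f.c, f.a', f.b', f.c'⟩

/-- conversion of angles -/
def ofFl (f : Fl) : Angles := ⟨f.a, f.b, f.c, f.a', f.b', f.c'⟩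

/-- conversion of trees with angles -/
def toAB : AngleTree → AB
  | .single b a => .vx b a
  | .join t c f g => .br (toAB t) (toAB c) (toFl f) (toFl g)

/-- conversion of trees with angles -/
def ofAB : AB → AngleTree
  | .vx b a => .single b a
  | .br t c f g => .join (ofAB t) (ofAB c) (ofFl f) (ofFl g)

lemma toTb_inj : ∀ s t : Tree, toTb s = toTb t → s = t
  | .single b a, .single b' a', h => by
    simp only [toTb, Tb.vx.injEq] at h
    rw [h.1, h.2]
  | .single b a, .join t c, h => by simp [toTb] at h
  | .join t c, .single b a, h => by simp [toTb] at h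
  | .join t c, .join t' c', h => by
    simp only [toTb, Tb.br.injEq] at h
    rw [toTb_inj t t' h.1, toTb_inj c c' h.2]

lemma toAB_of (y : AB) : toAB (ofAB y) = y := by
  induction y with
  | vx b a => rfl
  | br t c f g ht hc =>
    simp only [ofAB, toAB, ht, hc]
    rfl

lemma shape_to (y : AngleTree) : (toAB y).shape = toTb y.tree := by
  induction y with
  | single b a => rfl
  | join t c f g ht hc => simp only [toAB, AB.shape, AngleTree.tree, toTb, ht, hc]

lemma weight_to (y : AngleTree) : (toAB y).wt = y.weight := by
  induction y with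
  | single b a => rfl
  | join t c f g ht hc => simpa only [toAB, AB.wt, AngleTree.weight] using ht

lemma circle_to (y : AngleTree) : (toAB y).bl = y.circle := by
  induction y with
  | single b a => rfl
  | join t c f g ht hc => simpa only [toAB, AB.bl, AngleTree.circle] using ht

/-- conversion of pairs -/
def toFl2 (x : Angles × Angles) : Fl × Fl := (toFl x.1, toFl x.2)

lemma edges_to (y : AngleTree) : (toAB y).fl = y.edges.map toFl2 := by
  induction y with
  | single b a => rfl
  | join t c f g ht hc =>
    simp only [toAB, AB.fl, AngleTree.edges, ht, List.map_append, List.map_cons, List.map_nil]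
    rfl

lemma vertex_to (b : Bool) (w : ℤ) (l : List (Angles × Angles)) :
    VOK b w (l.map toFl2) ↔ VertexCondition b w l := by
  unfold VOK VertexCondition
  have h1 : (l.map toFl2 ++ (l.map toFl2).take 1) = (l ++ l.take 1).map toFl2 := by
    rw [List.map_append, List.map_take]
  rw [h1, List.isChain_map]
  refine and_congr Iff.rfl (and_congr ?_ ?_)
  · simp only [List.mem_map, forall_exists_index, and_imp, forall_apply_eq_imp_iff₂]
    exact Iff.rfl
  · simp only [List.mem_map, forall_exists_index, and_imp, forall_apply_eq_imp_iff₂, List.map_map]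
    exact Iff.rfl

lemma below_to (y : AngleTree) : (toAB y).OK ↔ Below y := by
  induction y with
  | single b a => exact Iff.rfl
  | join t c f g ht hc =>
    simp only [toAB, AB.OK, Below, ht, hc]
    have h2 := vertex_to c.circle c.weight ((g, f) :: c.edges)
    rw [List.map_cons] at h2
    rw [edges_to, weight_to, circle_to]
    exact and_congr Iff.rfl (and_congr Iff.rfl (and_congr Iff.rfl (and_congr Iff.rfl
      (and_congr Iff.rfl h2))))

lemma isAngle_to (y : AngleTree) : (toAB y).IsAng ↔ IsAngle y := by
  unfold AB.IsAng IsAngle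
  rw [below_to, edges_to, weight_to, circle_to, vertex_to]

lemma vol_to (y : AngleTree) : (toAB y).vol = vol y := by
  induction y with
  | single b a => rfl
  | join t c f g ht hc =>
    simp only [toAB, AB.vol, vol, ht, hc]
    rfl

lemma volume_eq (t : Tree) : {W : ℝ | ∃ y : AngleTree, y.tree = t ∧ IsAngle y ∧ vol y = W} =
    {W : ℝ | ∃ y : AB, y.shape = toTb t ∧ y.IsAng ∧ y.vol = W} := by
  ext W
  constructor
  · rintro ⟨y, h1, h2, h3⟩
    exact ⟨toAB y, by rw [shape_to, h1], (isAngle_to y).2 h2, by rw [vol_to, h3]⟩
  · rintro ⟨y, h1, h2, h3⟩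
    refine ⟨ofAB y, toTb_inj _ _ ?_, ?_, ?_⟩
    · rw [← shape_to, toAB_of, h1]
    · rw [← isAngle_to, toAB_of]
      exact h2
    · rw [← vol_to, toAB_of, h3]

lemma tangle_to (N : ℕ) (v : ℂ) (t : Tree) : tangle N v t = op N v (toTb t) := by
  induction t with
  | single b a => rfl
  | join t c ht hc =>
    simp only [tangle, toTb, op, ht, hc]
    rfl

lemma jones_to (t : Tree) (N : ℕ) : jones t N = jt (toTb t) N := by
  funext v
  unfold jones jt
  rw [tangle_to]
  rfl

lemma nc_to (t : Tree) : (toTb t).nc = t.children := by
  induction t with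
  | single b a => rfl
  | join t c ht hc => simp only [toTb, Tb.nc, Tree.children, ht]

lemma wt_to (t : Tree) : (toTb t).wt = t.weight := by
  induction t with
  | single b a => rfl
  | join t c ht hc => simp only [toTb, Tb.wt, Tree.weight, ht]

lemma bl_to (t : Tree) : (toTb t).bl = t.circle := by
  induction t with
  | single b a => rfl
  | join t c ht hc => simp only [toTb, Tb.bl, Tree.circle, ht]

lemma big_to {K : ℕ} {b : Bool} {n : ℕ} {a : ℤ} (h : Tree.Big K b n a) : Tb.BigV K b n a := by
  intro hb
  rcases h with h | h
  · rw [hb] at h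
    exact absurd h (by simp)
  · exact_mod_cast h

lemma below_tb (K : ℕ) (t : Tree) (h : t.LargeBelow K) : (toTb t).Below K := by
  induction t with
  | single b a => trivial
  | join t c ht hc =>
    refine ⟨ht h.1, hc h.2.1, ?_⟩
    rw [bl_to, nc_to, wt_to]
    exact big_to h.2.2

lemma large_to (K : ℕ) (t : Tree) (h : t.Large K) : (toTb t).Big K := by
  refine ⟨below_tb K t h.1, ?_⟩
  rw [bl_to, nc_to, wt_to]
  exact big_to h.2

/-- conversion of a tree without circles -/
def toTr : Tree → Tr
  | .single _ a => .vx a
  | .join t c => .br (toTr t) (toTr c)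

lemma op_free (N : ℕ) (v : ℂ) (t : Tree) (h : t.Free) :
    op N v (toTb t) = Pool.Agent.W719.AR.op N v (toTr t) := by
  induction t with
  | single b a =>
    have hb : b = false := h
    subst hb
    simp [toTb, toTr, op, opv, Pool.Agent.W719.AR.op]
  | join t c ht hc =>
    simp only [toTb, toTr, op, Pool.Agent.W719.AR.op]
    rw [ht h.1, hc h.2]

lemma jt_free (t : Tree) (h : t.Free) (N : ℕ) :
    jt (toTb t) N = Pool.Agent.W719.AR.jt (toTr t) N := by
  funext v
  unfold jt Pool.Agent.W719.AR.jt
  rw [op_free N v t h]

lemma mirror_to (t : Tree) : toTr t.mirror = Pool.Agent.W719.AX.ng (toTr t) := by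
  induction t with
  | single b a => rfl
  | join t c ht hc => simp only [Tree.mirror, toTr, Pool.Agent.W719.AX.ng, ht, hc]

lemma free_mirror (t : Tree) (h : t.Free) : t.mirror.Free := by
  induction t with
  | single b a => exact h
  | join t c ht hc => exact ⟨ht h.1, hc h.2⟩

end Conversion

open Pool.Agent.W719.AX (EXY)

/-- The expansion to all orders of the Kashaev invariants of arborescent links with large vertices,
and crossing circles.  The constant `K` is absolute. -/
theorem main : ∃ K : ℕ, ∀ t : Tree, 1 ≤ t.children → t.Large K →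
    (∀ N : ℕ, ContinuousAt (jones t N) (root N)) ∧
    ∃ V : ℝ, IsGreatest {W : ℝ | ∃ y : AngleTree, y.tree = t ∧ IsAngle y ∧ vol y = W} V ∧
      (∀ e f : ℤ, ∃ (v : ℂ) (y : ℕ → ℂ), 2 * Real.pi * v.re = V ∧ y 0 ≠ 0 ∧
        EXY (kashaev e f t) v y) ∧
      ∀ s : Tree, s.Free → t = s.double → ∃ x : ℕ → ℝ, 0 < x 0 ∧
        EXY (kashaev 0 1 t) ((V / (2 * Real.pi) : ℝ) : ℂ) (fun k => (x k : ℂ)) := by
  obtain ⟨K, hK0, hM⟩ := f_FINB
  refine ⟨⌈K⌉₊, fun t hc ht => ?_⟩
  have hK1 : K ^ 2 ≤ ((⌈K⌉₊ : ℕ) : ℝ) ^ 2 := by
    have := Nat.le_ceil K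
    nlinarith
  have hbv : ∀ (b : Bool) (n : ℕ) (a : ℤ), Tb.BigV (⌈K⌉₊ : ℝ) b n a → Tb.BigV K b n a :=
    fun b n a h hb => hK1.trans (h hb)
  have hmono : ∀ t : Tb, t.Below (⌈K⌉₊ : ℝ) → t.Below K := by
    intro t
    induction t with
    | vx b a => exact fun _ => trivial
    | br t c ht hc => exact fun h => ⟨ht h.1, hc h.2.1, hbv _ _ _ h.2.2⟩
  have hl := large_to _ t ht
  obtain ⟨V, v, y, h2, hv, hy, hexp⟩ := hM (toTb t) ⟨hmono _ hl.1, hbv _ _ _ hl.2⟩
    (by rw [nc_to]; exact hc)
  have hj : ∀ N, jones t N = jt (toTb t) N := fun N => jones_to t N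
  have hroot : ∀ N : ℕ, root N = Pool.Agent.W711.HT.vN N := fun N => rfl
  have hE : EXY (fun N : ℕ => jones t N (root N)) v y := by
    intro K
    obtain ⟨C, hC⟩ := hexp K
    refine ⟨C, hC.mono fun N hN => ?_⟩
    beta_reduce
    rw [hj, hroot]
    exact hN
  refine ⟨fun N => ?_, V, ?_, ?_, ?_⟩
  · rw [hj]
    exact Pool.Agent.TH639.J28.cnt _ _
  · rw [volume_eq]
    exact h2
  · intro e f
    obtain ⟨y', hy', h⟩ := hE.frame hy e f
    refine ⟨_, y', ?_, hy', h⟩
    have e1 : (v + Real.pi * Complex.I * (e + f)).re = v.re := by
      have : (Real.pi : ℂ) * Complex.I * (e + f) = ((Real.pi * (e + f) : ℝ) : ℂ) * Complex.I := by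
        push_cast
        ring
      rw [this, Complex.add_re, Complex.re_ofReal_mul, Complex.I_re, mul_zero, add_zero]
    rw [e1]
    exact hv
  · rintro s hs rfl
    have hf : s.double.Free := ⟨hs, free_mirror s hs⟩
    have hjt := jt_free s.double hf
    have hd : toTr s.double = .br (toTr s) (Pool.Agent.W719.AX.ng (toTr s)) := by
      rw [← mirror_to]
      rfl
    have hexp' : EXY (fun N : ℕ =>
        Pool.Agent.W719.AR.jt (toTr s.double) N (Pool.Agent.W711.HT.vN N)) v y := by
      intro K
      obtain ⟨C, hC⟩ := hexp K
      refine ⟨C, hC.mono fun N hN => ?_⟩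
      beta_reduce
      rw [← hjt]
      exact hN
    obtain ⟨x, hx, h⟩ := Pool.Agent.W719.AX.f_POS _ v y hy (by
      filter_upwards [Filter.eventually_ge_atTop 2] with N hN
      obtain ⟨r, hr, h⟩ := Pool.Agent.W719.AX.f_DBL (toTr s) N hN
      refine ⟨r, hr, ?_⟩
      rw [← h, ← hd]) hexp'
    refine ⟨x, hx, ?_⟩
    intro K
    obtain ⟨C, hC⟩ := h K
    refine ⟨C, ?_⟩
    filter_upwards [hC, Filter.eventually_ge_atTop 1] with N hN h1
    have hv' : V / (2 * Real.pi) = v.re := by
      rw [← hv]
      field_simp
    have e2 : kashaev 0 1 s.double N = (-1) ^ (N - 1) *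
        Pool.Agent.W719.AR.jt (toTr s.double) N (Pool.Agent.W711.HT.vN N) := by
      unfold kashaev
      rw [hj, hroot, hjt, zero_mul, zpow_zero, mul_one, one_mul]
      congr 1
      rw [← zpow_natCast, Nat.cast_sub h1]
      norm_num
    rw [e2, hv']
    have e3 : (((Real.sqrt N) ^ 3 * Real.exp (N * v.re) : ℝ) : ℂ) =
        (((Real.sqrt N) ^ 3 : ℝ) : ℂ) * Complex.exp (N * (v.re : ℂ)) := by
      push_cast
      ring
    rw [← e3]
    exact hN

end Pool.Agent.TH563.UV.Arb
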