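import Pool.Agent.TH563.UV.Stm
import Pool.Agent.W748.AR.CPD

/-!
# Critical points, uniformly in the number of factors: one function
-/

set_option autoImplicit false

namespace Pool.Agent.TH563.UV

open Filter Topology Metric Set
open Pool.Agent.W711.HT hiding XX
open Pool.Agent.W293.HT
open scoped Real

variable {ρ τ c C m : ℝ} {G : ℂ → ℂ}

/-- lower bound of `i A + l` -/
theorem iAl (hc : 0 < c) (hC : 1 ≤ C) (hm : 0 ≤ m) {A : ℝ} {l : ℂ} (h1 : l.re ≤ -(c * m))
    (h2 : ‖l‖ ≤ C * m) : min (1 / 3) (c / (2 * C + 1)) * (|A| + m) ≤ ‖Complex.I * A + l‖ := by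
  have hL : 0 ≤ |A| + m := by positivity
  rcases le_total (2 * C * m) |A| with h | h
  · have e1 : |A| - C * m ≤ ‖Complex.I * A + l‖ := by
      have := norm_sub_le (Complex.I * A + l) l
      rw [add_sub_cancel_right, norm_mul, Complex.norm_I, one_mul, Complex.norm_real,
        Real.norm_eq_abs] at this
      linarith
    have e2 : min (1 / 3) (c / (2 * C + 1)) * (|A| + m) ≤ 1 / 3 * (|A| + m) :=
      mul_le_mul_of_nonneg_right (min_le_left _ _) hL
    have e3 : m ≤ C * m := by nlinarith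
    linarith
  · have e1 : c * m ≤ ‖Complex.I * A + l‖ := by
      have h3 := (Complex.abs_re_le_norm (Complex.I * A + l))
      have h4 : (Complex.I * A + l).re = l.re := by simp
      rw [h4] at h3
      have := neg_abs_le l.re
      linarith
    have e2 : min (1 / 3) (c / (2 * C + 1)) * (|A| + m) ≤ c / (2 * C + 1) * (|A| + m) :=
      mul_le_mul_of_nonneg_right (min_le_right _ _) hL
    have e3 : c / (2 * C + 1) * (|A| + m) ≤ c * m := by
      rw [div_mul_eq_mul_div, div_le_iff₀ (by linarith)]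
      nlinarith
    linarith

/-- properties of a critical point -/
theorem crit_propsU (hm : 1 ≤ m) (hG : GH ρ τ (c * m) (C * m) G) (hτ : 0 < τ) (hτρ : τ ≤ ρ)
    (hρ : ρ ≤ 1 / 4) (hc : 0 < c) (hC : 1 ≤ C) (a : ℤ) (A : ℝ) (hA : A = a / (2 * π)) {R : ℝ}
    (hR : 0 < R) (hL1 : R / (|A| + m) < τ)
    (hL2 : 2 * (C * R ^ 2 / 4 + C ^ 2 * R ^ 2 + (R ^ 2 / 2 + R + C * R ^ 2)) / (|A| + m) <
      c * ρ ^ 2) (z : ℂ) (hz : ‖z‖ ≤ R / (|A| + m))
    (hcr : Complex.I * A * z + Complex.I + deriv G z = 0) :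
    z ∈ Rc ρ τ ∧ 0 < z.im ∧ SAD a G ρ z ∧
      ‖qq a G z - G 0‖ ≤ (R ^ 2 / 2 + R + C * R ^ 2) / (|A| + m) := by
  have hρ0 : 0 < ρ := hτ.trans_le hτρ
  have hC0 : 0 < C := by linarith
  have hm0 : 0 < m := by linarith
  obtain ⟨L, hL⟩ : ∃ L : ℝ, L = |A| + m := ⟨_, rfl⟩
  rw [← hL] at hL1 hL2 hz ⊢
  have hmL : m ≤ L := by rw [hL]; linarith [abs_nonneg A]
  have hAL : |A| ≤ L := by rw [hL]; linarith
  have hL0 : 0 < L := by linarith
  have hcm : 0 < c * m := by positivity
  have hCm : 0 < C * m := by positivity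
  have hzτ : ‖z‖ < τ := by linarith
  have hz1 : z ∈ Rc ρ τ := mem_Rc_of_norm hτρ hzτ
  have hz2 : z ∈ Rc (2 * ρ) (2 * τ) := Rc_mono (by linarith) (by linarith) hz1
  have hz3 : z ∈ Rc (3 * ρ) (3 * τ) := Rc_mono (by linarith) (by linarith) hz1
  have hd := hG.d1 hρ0 hτ hz2
  have hI2 : Complex.I * Complex.I = -1 := Complex.I_mul_I
  have hzne : z ≠ 0 := by
    rintro rfl
    rw [hG.d0 hρ0 hτ] at hcr
    simp at hcr
  have hzn : 0 < ‖z‖ := norm_pos_iff.2 hzne
  -- imaginary part
  have him : z.im = -(deriv G z * (starRingEnd ℂ) z).re := by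
    have h1 : (Complex.I * A * z + Complex.I + deriv G z) * (starRingEnd ℂ) z = 0 := by
      rw [hcr, zero_mul]
    have h2 := congrArg Complex.re h1
    simp only [Complex.mul_re, Complex.add_re, Complex.add_im, Complex.mul_im, Complex.I_re,
      Complex.I_im, Complex.ofReal_re, Complex.ofReal_im, Complex.conj_re, Complex.conj_im,
      Complex.zero_re] at h2 ⊢
    nlinarith [h2]
  have hconc := hG.conc hρ0 hτ hz2
  have himpos : 0 < z.im := by
    have : 0 < c * m * ‖z‖ ^ 2 := by positivity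
    linarith
  have himle : z.im ≤ C * m * ‖z‖ ^ 2 := by
    rw [him]
    have h1 := Complex.abs_re_le_norm (deriv G z * (starRingEnd ℂ) z)
    rw [norm_mul, Complex.norm_conj] at h1
    have h2 := neg_abs_le (deriv G z * (starRingEnd ℂ) z).re
    have h3 : ‖deriv G z‖ * ‖z‖ ≤ C * m * ‖z‖ * ‖z‖ := by gcongr
    nlinarith
  have hzsq : ‖z‖ ^ 2 ≤ R ^ 2 / L ^ 2 := by
    calc ‖z‖ ^ 2 ≤ (R / L) ^ 2 := by gcongr
      _ = R ^ 2 / L ^ 2 := by rw [div_pow]
  have himA : z.im ≤ C * m * (R ^ 2 / L ^ 2) := by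
    calc z.im ≤ C * m * ‖z‖ ^ 2 := himle
      _ ≤ C * m * (R ^ 2 / L ^ 2) := by gcongr
  -- value
  have hval : ‖qq a G z - G 0‖ ≤ (R ^ 2 / 2 + R + C * R ^ 2) / L := by
    have e2 : qq a G z - G 0 = Complex.I * A * z ^ 2 / 2 + Complex.I * z + (G z - G 0) := by
      unfold qq
      rw [hA]
      push_cast
      ring
    rw [e2]
    have n1 : ‖Complex.I * A * z ^ 2 / 2‖ ≤ R ^ 2 / 2 / L := by
      rw [norm_div, norm_mul, norm_mul, Complex.norm_I, Complex.norm_real, Real.norm_eq_abs,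
        norm_pow, one_mul, Complex.norm_ofNat]
      calc |A| * ‖z‖ ^ 2 / 2 ≤ L * (R ^ 2 / L ^ 2) / 2 := by gcongr
        _ = R ^ 2 / 2 / L := by field_simp
    have n2 : ‖Complex.I * z‖ ≤ R / L := by
      rw [norm_mul, Complex.norm_I, one_mul]; exact hz
    have n3 : ‖G z - G 0‖ ≤ C * R ^ 2 / L := by
      refine (hG.val hρ0 hτ hCm.le hz2).trans ?_
      calc C * m * ‖z‖ ^ 2 ≤ C * L * (R ^ 2 / L ^ 2) := by gcongr
        _ = C * R ^ 2 / L := by field_simp
    calc _ ≤ ‖Complex.I * A * z ^ 2 / 2 + Complex.I * z‖ + ‖G z - G 0‖ := norm_add_le _ _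
      _ ≤ ‖Complex.I * A * z ^ 2 / 2‖ + ‖Complex.I * z‖ + ‖G z - G 0‖ := by
          gcongr; exact norm_add_le _ _
      _ ≤ R ^ 2 / 2 / L + R / L + C * R ^ 2 / L := by gcongr
      _ = (R ^ 2 / 2 + R + C * R ^ 2) / L := by ring
  have hcr' : Complex.I * a * z / (2 * π) + Complex.I + deriv G z = 0 := by
    rw [← hcr, hA]
    push_cast
    ring
  -- points on the horizontal line
  have hline : ∀ x y : ℝ, |x| ≤ ρ → 0 ≤ y → y ≤ z.im →
      (x : ℂ) + y * Complex.I ∈ Rc (2 * ρ) (2 * τ) := by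
    intro x y hx hy hy'
    refine ⟨?_, ?_⟩
    · simpa using lt_of_le_of_lt hx (by linarith)
    · have h1 : z.im ≤ ‖z‖ := (le_abs_self _).trans (Complex.abs_im_le_norm z)
      have : |y| < 2 * τ := by rw [abs_of_nonneg hy]; linarith
      simpa using this
  have hre : |z.re| ≤ ρ := hz1.1.le
  have hzri : (z.re : ℂ) + z.im * Complex.I = z := Complex.re_add_im z
  -- the line
  have hLi : ∀ x : ℝ, |x| ≤ ρ → (qq a G (x + z.im * Complex.I)).re ≤
      (qq a G z).re - c * m / 2 * (x - z.re) ^ 2 := by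
    intro x hx
    have h1 := quad_bound (f := fun x : ℝ => (qq a G (x + z.im * Complex.I)).re)
      (f' := fun x : ℝ => (Complex.I * a * ((x : ℂ) + z.im * Complex.I) / (2 * π) + Complex.I +
        deriv G (x + z.im * Complex.I)).re)
      (f'' := fun x : ℝ => (Complex.I * a / (2 * π) +
        deriv (deriv G) (x + z.im * Complex.I)).re) (r := ρ) (c := c * m) (x0 := z.re)
      (fun x hx => hasDerivAt_line (hasDerivAt_qq a (hG.da
        (Rc_mono (by linarith) (by linarith) (hline x z.im hx himpos.le le_rfl)))))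
      (fun x hx => hasDerivAt_line (Q := fun w => Complex.I * a * w / (2 * π) + Complex.I +
        deriv G w) (hG.hasDerivAt_dqq a
        (Rc_mono (by linarith) (by linarith) (hline x z.im hx himpos.le le_rfl))))
      (fun x hx => by
        show (Complex.I * a / (2 * π) + deriv (deriv G) (x + z.im * Complex.I)).re ≤ -(c * m)
        rw [Complex.add_re, re_I_a, zero_add]
        exact hG.d2 _ (hline x z.im hx himpos.le le_rfl))
      hre (by
        show (Complex.I * a * ((z.re : ℂ) + z.im * Complex.I) / (2 * π) + Complex.I +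
          deriv G (z.re + z.im * Complex.I)).re = 0
        rw [hzri, hcr', Complex.zero_re]) hx
    simp only [hzri] at h1
    exact h1
  -- the real axis
  have hRe : ∀ x : ℝ, |x| ≤ ρ → (G x).re ≤ (G 0).re - c * m / 2 * x ^ 2 := by
    intro x hx
    have hr2 : ∀ x : ℝ, |x| ≤ ρ → (x : ℂ) + (0 : ℝ) * Complex.I ∈ Rc (2 * ρ) (2 * τ) :=
      fun x hx => hline x 0 hx le_rfl himpos.le
    have h1 := quad_bound (f := fun x : ℝ => (G (x + (0 : ℝ) * Complex.I)).re)
      (f' := fun x : ℝ => (deriv G (x + (0 : ℝ) * Complex.I)).re)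
      (f'' := fun x : ℝ => (deriv (deriv G) (x + (0 : ℝ) * Complex.I)).re) (r := ρ) (c := c * m)
      (x0 := 0)
      (fun x hx => hasDerivAt_line
        (hG.da (Rc_mono (by linarith) (by linarith) (hr2 x hx))).hasDerivAt)
      (fun x hx => hasDerivAt_line
        (hG.dda (Rc_mono (by linarith) (by linarith) (hr2 x hx))).hasDerivAt)
      (fun x hx => hG.d2 _ (hr2 x hx)) (by simpa using hρ0.le)
      (by
        show (deriv G ((0 : ℝ) + (0 : ℝ) * Complex.I)).re = 0
        simp [hG.d0 hρ0 hτ]) hx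
    simpa using h1
  have hside : ∀ σ y : ℝ, |σ| = ρ → 0 ≤ y → y ≤ z.im →
      (qq a G (σ + y * Complex.I)).re < (qq a G z).re := by
    intro σ y hσ hy hy'
    have hσ2 : σ ^ 2 = ρ ^ 2 := by rw [← sq_abs, hσ]
    have h1 : (qq a G (σ + y * Complex.I)).re =
        -(A * σ * y) - y + (G (σ + y * Complex.I)).re := by
      have e3 : qq a G (σ + y * Complex.I) = Complex.I * A * (σ + y * Complex.I) ^ 2 / 2 +
          Complex.I * (σ + y * Complex.I) + G (σ + y * Complex.I) := by
        unfold qq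
        rw [hA]
        push_cast
        ring
      have e4 : Complex.I * A * ((σ : ℂ) + y * Complex.I) ^ 2 / 2 +
          Complex.I * (σ + y * Complex.I) = ((-(A * σ * y) - y : ℝ) : ℂ) +
            ((A * (σ ^ 2 - y ^ 2) / 2 + σ : ℝ) : ℂ) * Complex.I := by
        push_cast
        linear_combination ((A : ℂ) * σ * y + (y : ℂ) + (A : ℂ) * (y : ℂ) ^ 2 * Complex.I / 2) * hI2
      rw [e3, e4, Complex.add_re, Complex.add_re, Complex.ofReal_re, Complex.re_ofReal_mul,
        Complex.I_re, mul_zero, add_zero]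
    have hm0 : (σ : ℂ) + (0 : ℝ) * Complex.I ∈ Rc (2 * ρ) (2 * τ) :=
      hline σ 0 hσ.le le_rfl himpos.le
    have hm1 : (σ : ℂ) + y * Complex.I ∈ Rc (2 * ρ) (2 * τ) := hline σ y hσ.le hy hy'
    have h2 : ‖G (σ + y * Complex.I) - G σ‖ ≤ C * m * y := by
      have h3 := Convex.norm_image_sub_le_of_norm_deriv_le (𝕜 := ℂ) (f := G) (C := C * m)
        (s := Rc (2 * ρ) (2 * τ)) (x := (σ : ℂ)) (y := (σ : ℂ) + y * Complex.I)
        (fun x hx => hG.da (Rc_mono (by linarith) (by linarith) hx))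
        (fun x hx => (hG.d1 hρ0 hτ hx).trans (by
          have h4 : ‖x‖ ≤ 1 := by
            have h5 := Complex.norm_le_abs_re_add_abs_im x
            have h6 := hx.1
            have h7 := hx.2
            linarith
          nlinarith))
        (convex_Rc _ _) (by simpa using hm0) hm1
      refine h3.trans (le_of_eq ?_)
      rw [add_sub_cancel_left, norm_mul, Complex.norm_I, Complex.norm_real, Real.norm_eq_abs,
        abs_of_nonneg hy, mul_one]
    have h4 : (G (σ + y * Complex.I)).re ≤ (G σ).re + C * m * y := by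
      have h5 := (Complex.re_le_norm (G (σ + y * Complex.I) - G σ)).trans h2
      rw [Complex.sub_re] at h5
      linarith
    have h5 := hRe σ hσ.le
    rw [hσ2] at h5
    have h6 : (G 0).re - (R ^ 2 / 2 + R + C * R ^ 2) / L ≤ (qq a G z).re := by
      have h7 := (Complex.abs_re_le_norm (qq a G z - G 0)).trans hval
      rw [Complex.sub_re, abs_le] at h7
      linarith [h7.1]
    have h6' : (R ^ 2 / 2 + R + C * R ^ 2) / L ≤ m * ((R ^ 2 / 2 + R + C * R ^ 2) / L) := by
      have : 0 ≤ (R ^ 2 / 2 + R + C * R ^ 2) / L := by positivity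
      nlinarith
    have h8 : -(A * σ * y) ≤ |A| * ρ * y := by
      have h9 := neg_abs_le (A * σ * y)
      rw [abs_mul, abs_mul, hσ, abs_of_nonneg hy] at h9
      linarith
    have h9 : |A| * ρ * y ≤ m * (C * R ^ 2 / 4 / L) := by
      calc |A| * ρ * y ≤ L * (1 / 4) * (C * m * (R ^ 2 / L ^ 2)) := by
            gcongr
            exact hy'.trans himA
        _ = m * (C * R ^ 2 / 4 / L) := by field_simp
    have h10 : C * m * y ≤ m * (C ^ 2 * R ^ 2 / L) := by
      calc C * m * y ≤ C * L * (C * m * (R ^ 2 / L ^ 2)) := by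
            gcongr
            exact hy'.trans himA
        _ = m * (C ^ 2 * R ^ 2 / L) := by field_simp
    have h11 : m * (2 * (C * R ^ 2 / 4 + C ^ 2 * R ^ 2 + (R ^ 2 / 2 + R + C * R ^ 2)) / L) <
        m * (c * ρ ^ 2) := mul_lt_mul_of_pos_left hL2 (by linarith)
    have h12 : m * (2 * (C * R ^ 2 / 4 + C ^ 2 * R ^ 2 + (R ^ 2 / 2 + R + C * R ^ 2)) / L) =
        2 * (m * (C * R ^ 2 / 4 / L) + m * (C ^ 2 * R ^ 2 / L) +
          m * ((R ^ 2 / 2 + R + C * R ^ 2) / L)) := by ring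
    have h13 : c * m / 2 * ρ ^ 2 = m * (c * ρ ^ 2) / 2 := by ring
    rw [h12] at h11
    rw [h13] at h5
    rw [h1]
    linarith only [h4, h5, h6, h6', h8, h9, h10, h11, hy]
  refine ⟨hz1, himpos, ⟨?_, ?_, ?_, ?_, ?_⟩, hval⟩
  · intro h
    rw [Complex.sin_eq_zero_iff] at h
    obtain ⟨k, hk⟩ := h
    have : z.im = 0 := by
      rw [hk]
      have : ((k : ℂ) * π) = ((k * π : ℝ) : ℂ) := by push_cast; ring
      rw [this, Complex.ofReal_im]
    linarith
  · rw [hG.deriv_qq a hz3]; exact hcr'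
  · rw [hG.deriv2_qq a hz3, Complex.add_re, re_I_a, zero_add]
    linarith [hG.d2 z hz2]
  · intro x hx hxne
    refine (hLi x hx).trans_lt ?_
    have : 0 < (x - z.re) ^ 2 := by
      have := sub_ne_zero.2 hxne
      positivity
    have : 0 < c * m / 2 * (x - z.re) ^ 2 := by positivity
    linarith
  · intro y hy hy'
    refine ⟨hside ρ y (abs_of_pos hρ0) hy hy', ?_⟩
    have := hside (-ρ) y (by rw [abs_neg, abs_of_pos hρ0]) hy hy'
    simpa using this

/-- the second derivative is Lipschitz near `0` -/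
theorem dd_lip (hG : GH ρ τ c C G) (hτ : 0 < τ) (hτρ : τ ≤ ρ) {w : ℂ} (hw : ‖w‖ ≤ τ) :
    ‖deriv (deriv G) w - deriv (deriv G) 0‖ ≤ 2 * C / τ * ‖w‖ := by
  have hρ0 : 0 < ρ := hτ.trans_le hτρ
  have hU := isOpen_Rc (3 * ρ) (3 * τ)
  have hsub : ball (0 : ℂ) (2 * τ) ⊆ Rc (2 * ρ) (2 * τ) := by
    intro x hx
    rw [mem_ball_zero_iff] at hx
    exact mem_Rc_of_norm (by linarith) hx
  have hd : DifferentiableOn ℂ (deriv (deriv G)) (ball 0 (2 * τ)) :=
    ((hG.an.deriv hU).deriv hU).mono (hsub.trans (Rc_mono (by linarith) (by linarith)))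
  have h3 : ∀ x ∈ closedBall (0 : ℂ) τ, ‖deriv (deriv (deriv G)) x‖ ≤ 2 * C / τ := by
    intro x hx
    rw [mem_closedBall_zero_iff] at hx
    have hb : closedBall x (τ / 2) ⊆ ball 0 (2 * τ) := by
      intro y hy
      rw [mem_ball_zero_iff]
      rw [mem_closedBall, dist_eq_norm] at hy
      have := norm_add_le (y - x) x
      rw [sub_add_cancel] at this
      linarith
    have h4 := Complex.norm_deriv_le_of_forall_mem_sphere_norm_le (by positivity : 0 < τ / 2)
      (hd.diffContOnCl_ball hb) (fun y hy => hG.d2b y (hsub (hb (sphere_subset_closedBall hy))))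
    refine h4.trans (le_of_eq ?_)
    field_simp
  have h4 := Convex.norm_image_sub_le_of_norm_deriv_le (𝕜 := ℂ) (f := deriv (deriv G))
    (C := 2 * C / τ) (s := closedBall 0 τ) (x := 0) (y := w)
    (fun x hx => hd.differentiableAt (isOpen_ball.mem_nhds (by
      rw [mem_closedBall_zero_iff] at hx
      rw [mem_ball_zero_iff]
      linarith))) h3 (convex_closedBall _ _) (mem_closedBall_self hτ.le)
    (by rw [mem_closedBall_zero_iff]; exact hw)
  rwa [sub_zero] at h4

end Pool.Agent.TH563.UV
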