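import Pool.Agent.TH563.UV.Crit1
import Pool.Agent.W19.HT.Fix

/-!
# Critical points, uniformly in the number of factors: families
-/

set_option autoImplicit false

namespace Pool.Agent.TH563.UV

open Filter Topology Metric Set
open Pool.Agent.W711.HT hiding XX
open Pool.Agent.W293.HT
open scoped Real

/-- existence of critical points in a family -/
theorem exU (hFIX : S_FIX) {ρ τ c C : ℝ} (hτ : 0 < τ) (hτρ : τ ≤ ρ) (hc : 0 < c) (hC : 1 ≤ C)
    {U : Set ℂ} (hU : IsOpen U) : ∃ R : ℝ, 0 < R ∧ ∃ L₀ : ℝ, 0 < L₀ ∧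
    ∀ (m : ℝ) (G : ℂ → ℂ → ℂ), 1 ≤ m → (∀ ψ ∈ U, GH ρ τ (c * m) (C * m) (G ψ)) →
    DifferentiableOn ℂ (fun p : ℂ × ℂ => deriv (G p.2) p.1) (ball 0 τ ×ˢ U) →
    DifferentiableOn ℂ (fun ψ => deriv (deriv (G ψ)) 0) U →
    ∀ A : ℝ, L₀ ≤ |A| + m → ∃ zs : ℂ → ℂ, DifferentiableOn ℂ zs U ∧ ∀ ψ ∈ U,
      ‖zs ψ‖ ≤ R / (|A| + m) ∧ Complex.I * A * zs ψ + Complex.I + deriv (G ψ) (zs ψ) = 0 ∧
      ∀ z : ℂ, ‖z‖ ≤ R / (|A| + m) → Complex.I * A * z + Complex.I + deriv (G ψ) z = 0 →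
        z = zs ψ := by
  obtain ⟨c₂, hc₂⟩ : ∃ c₂ : ℝ, c₂ = min (1 / 3) (c / (2 * C + 1)) := ⟨_, rfl⟩
  have hc₂0 : 0 < c₂ := by rw [hc₂]; exact lt_min (by norm_num) (by positivity)
  obtain ⟨C₃, hC₃⟩ : ∃ C₃ : ℝ, C₃ = 2 * C / τ := ⟨_, rfl⟩
  have hC₃0 : 0 < C₃ := by rw [hC₃]; positivity
  have hρ0 : 0 < ρ := hτ.trans_le hτρ
  refine ⟨2 / c₂, by positivity, 2 * (2 / c₂) / τ + 1 + C₃ * (2 / c₂) ^ 2 +
    2 * C₃ * (2 / c₂) / c₂, by positivity, ?_⟩
  intro m G hm hG hjd hdd A hL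
  obtain ⟨R, hR⟩ : ∃ R : ℝ, R = 2 / c₂ := ⟨_, rfl⟩
  have hR0 : 0 < R := by rw [hR]; positivity
  rw [← hR] at hL ⊢
  obtain ⟨L, hLe⟩ : ∃ L : ℝ, L = |A| + m := ⟨_, rfl⟩
  rw [← hLe] at hL ⊢
  have hmL : m ≤ L := by rw [hLe]; linarith [abs_nonneg A]
  have hL0 : 0 < L := by linarith
  have p1 : 0 ≤ 2 * R / τ := by positivity
  have p2 : 0 ≤ C₃ * R ^ 2 := by positivity
  have p3 : 0 ≤ 2 * C₃ * R / c₂ := by positivity
  have q1 : 2 * (R / L) < τ := by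
    have h1 : 2 * R / τ < L := by linarith
    rw [div_lt_iff₀ hτ] at h1
    rw [← mul_div_assoc, div_lt_iff₀ hL0]
    linarith
  have q2 : C₃ * R ^ 2 / L ≤ 1 := by
    rw [div_le_one hL0]
    linarith
  have q3 : C₃ * R / (c₂ * L) ≤ 1 / 2 := by
    have h1 : 2 * C₃ * R / c₂ ≤ L := by linarith
    rw [div_le_iff₀ hc₂0] at h1
    rw [div_le_iff₀ (by positivity)]
    linarith
  obtain ⟨r, hr⟩ : ∃ r : ℝ, r = R / L := ⟨_, rfl⟩
  have hr0 : 0 < r := by rw [hr]; positivity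
  rw [← hr] at q1 ⊢
  have hrL : r * L = R := by rw [hr]; field_simp
  -- the linear coefficient
  have hlin : ∀ ψ ∈ U, c₂ * L ≤ ‖Complex.I * A + deriv (deriv (G ψ)) 0‖ := by
    intro ψ hψ
    have h0 : (0 : ℂ) ∈ Rc (2 * ρ) (2 * τ) := zero_mem_Rc (by linarith) (by linarith)
    have := iAl (A := A) hc hC (by linarith : 0 ≤ m) ((hG ψ hψ).d2 0 h0) ((hG ψ hψ).d2b 0 h0)
    rw [hc₂, hLe]
    exact this
  have hlne : ∀ ψ ∈ U, Complex.I * A + deriv (deriv (G ψ)) 0 ≠ 0 := by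
    intro ψ hψ h
    have := hlin ψ hψ
    rw [h, norm_zero] at this
    have : 0 < c₂ * L := by positivity
    linarith
  have hsub : ∀ w : ℂ, ‖w‖ < τ → w ∈ Rc (3 * ρ) (3 * τ) := fun w hw =>
    Rc_mono (by linarith) (by linarith) (mem_Rc_of_norm hτρ hw)
  -- the remainder
  have hrem : ∀ ψ ∈ U, ∀ w ∈ closedBall (0 : ℂ) r, ∀ w' ∈ closedBall (0 : ℂ) r,
      ‖(deriv (G ψ) w - deriv (deriv (G ψ)) 0 * w) -
        (deriv (G ψ) w' - deriv (deriv (G ψ)) 0 * w')‖ ≤ C₃ * m * r * ‖w - w'‖ := by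
    intro ψ hψ w hw w' hw'
    have h1 := Convex.norm_image_sub_le_of_norm_deriv_le (𝕜 := ℂ)
      (f := fun w => deriv (G ψ) w - deriv (deriv (G ψ)) 0 * w)
      (C := C₃ * m * r) (s := closedBall 0 r) (x := w') (y := w)
      (fun x hx => by
        rw [mem_closedBall_zero_iff] at hx
        exact ((hG ψ hψ).dda (hsub x (by linarith))).sub
          ((differentiableAt_id).const_mul _))
      (fun x hx => by
        rw [mem_closedBall_zero_iff] at hx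
        have e1 : deriv (fun w => deriv (G ψ) w - deriv (deriv (G ψ)) 0 * w) x =
            deriv (deriv (G ψ)) x - deriv (deriv (G ψ)) 0 := by
          have h2 : HasDerivAt (fun w : ℂ => deriv (deriv (G ψ)) 0 * w)
              (deriv (deriv (G ψ)) 0) x := by
            simpa using (hasDerivAt_id x).const_mul (deriv (deriv (G ψ)) 0)
          exact (((hG ψ hψ).dda (hsub x (by linarith))).hasDerivAt.sub h2).deriv
        rw [e1]
        refine (dd_lip (hG ψ hψ) hτ hτρ (by linarith)).trans ?_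
        have e2 : 2 * (C * m) / τ = C₃ * m := by rw [hC₃]; ring
        rw [e2]
        have : 0 ≤ C₃ * m := by positivity
        exact mul_le_mul_of_nonneg_left hx this)
      (convex_closedBall _ _) hw' hw
    exact h1
  have hrem0 : ∀ ψ ∈ U, ∀ w ∈ closedBall (0 : ℂ) r,
      ‖deriv (G ψ) w - deriv (deriv (G ψ)) 0 * w‖ ≤ 1 := by
    intro ψ hψ w hw
    have h1 := hrem ψ hψ w hw 0 (mem_closedBall_self hr0.le)
    rw [(hG ψ hψ).d0 hρ0 hτ, mul_zero, sub_zero, sub_zero, sub_zero] at h1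
    refine h1.trans ?_
    rw [mem_closedBall_zero_iff] at hw
    have h2 : C₃ * m * r * ‖w‖ ≤ C₃ * L * r * r := by gcongr
    have h3 : C₃ * L * r * r = C₃ * R ^ 2 / L := by
      rw [hr]; field_simp
    linarith
  obtain ⟨zs, hzd, hz⟩ := hFIX
    (fun w ψ => -(Complex.I + (deriv (G ψ) w - deriv (deriv (G ψ)) 0 * w)) /
      (Complex.I * A + deriv (deriv (G ψ)) 0)) r U hr0 hU
    (by
      have e1 : DifferentiableOn ℂ (fun p : ℂ × ℂ => deriv (deriv (G p.2)) 0)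
          (ball 0 (2 * r) ×ˢ U) := hdd.comp differentiableOn_snd (fun p hp => hp.2)
      have e2 : DifferentiableOn ℂ (fun p : ℂ × ℂ => deriv (G p.2) p.1) (ball 0 (2 * r) ×ˢ U) :=
        hjd.mono (prod_mono_left (ball_subset_ball q1.le))
      have e3 : DifferentiableOn ℂ (fun p : ℂ × ℂ => p.1) (ball 0 (2 * r) ×ˢ U) :=
        differentiableOn_fst
      have e4 : DifferentiableOn ℂ (fun p : ℂ × ℂ =>
          (Complex.I * A + deriv (deriv (G p.2)) 0)⁻¹) (ball 0 (2 * r) ×ˢ U) := by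
        intro p hp
        exact ((e1 p hp).const_add (Complex.I * A)).inv (hlne p.2 hp.2)
      have e5 := (((e2.sub (e1.mul e3)).const_add Complex.I).neg).mul e4
      refine e5.congr ?_
      intro p hp
      simp only [Pi.mul_apply, Pi.neg_apply, Pi.sub_apply, div_eq_mul_inv])
    (by
      intro w hw ψ hψ
      rw [norm_div, norm_neg]
      have h1 := norm_add_le Complex.I (deriv (G ψ) w - deriv (deriv (G ψ)) 0 * w)
      rw [Complex.norm_I] at h1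
      have h2 := hrem0 ψ hψ w hw
      have h3 := hlin ψ hψ
      have h4 : 0 < c₂ * L := by positivity
      rw [div_le_iff₀ (by linarith)]
      have h5 : r * (c₂ * L) = 2 := by
        rw [hr, hR]; field_simp
      have h6 : r * (c₂ * L) ≤ r * ‖Complex.I * A + deriv (deriv (G ψ)) 0‖ :=
        mul_le_mul_of_nonneg_left h3 hr0.le
      linarith)
    (by
      intro w hw w' hw' ψ hψ
      have h1 := hrem ψ hψ w hw w' hw'
      have h3 := hlin ψ hψ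
      have h4 : 0 < c₂ * L := by positivity
      have h5 : 0 < ‖Complex.I * A + deriv (deriv (G ψ)) 0‖ := by linarith
      rw [← sub_div, norm_div, div_le_iff₀ h5]
      have e1 : -(Complex.I + (deriv (G ψ) w - deriv (deriv (G ψ)) 0 * w)) -
          -(Complex.I + (deriv (G ψ) w' - deriv (deriv (G ψ)) 0 * w')) =
          -((deriv (G ψ) w - deriv (deriv (G ψ)) 0 * w) -
            (deriv (G ψ) w' - deriv (deriv (G ψ)) 0 * w')) := by ring
      rw [e1, norm_neg]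
      refine h1.trans ?_
      have h6 : C₃ * m * r ≤ 1 / 2 * (c₂ * L) := by
        have h7 : C₃ * m * r ≤ C₃ * L * r := by gcongr
        have h8 : C₃ * L * r = C₃ * R := by rw [mul_assoc, mul_comm L r, hrL]
        rw [div_le_iff₀ h4] at q3
        linarith
      have h7 : 1 / 2 * (c₂ * L) ≤ 1 / 2 * ‖Complex.I * A + deriv (deriv (G ψ)) 0‖ := by linarith
      calc C₃ * m * r * ‖w - w'‖ ≤ 1 / 2 * ‖Complex.I * A + deriv (deriv (G ψ)) 0‖ * ‖w - w'‖ :=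
            mul_le_mul_of_nonneg_right (h6.trans h7) (norm_nonneg _)
        _ = 1 / 2 * ‖w - w'‖ * ‖Complex.I * A + deriv (deriv (G ψ)) 0‖ := by ring)
  have hiff : ∀ ψ ∈ U, ∀ z : ℂ, -(Complex.I + (deriv (G ψ) z - deriv (deriv (G ψ)) 0 * z)) /
      (Complex.I * A + deriv (deriv (G ψ)) 0) = z ↔
      Complex.I * A * z + Complex.I + deriv (G ψ) z = 0 := by
    intro ψ hψ z
    rw [div_eq_iff (hlne ψ hψ)]
    constructor
    · intro h
      linear_combination -h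
    · intro h
      linear_combination -h
  refine ⟨zs, hzd, fun ψ hψ => ?_⟩
  obtain ⟨h1, h2, h3⟩ := hz ψ hψ
  exact ⟨h1, (hiff ψ hψ _).1 h2, fun z hz1 hz2 => h3 z hz1 ((hiff ψ hψ z).2 hz2)⟩

section

variable {ρ τ κ c : ℝ} {s dl : ℂ → ℂ → ℂ}

/-- the bounds of the second derivatives -/
theorem gh_U (hK : KD ρ τ κ c s dl) {C₀ ε₀ : ℝ} (hε₁ : ε₀ ≤ 1)
    (hε₂ : ε₀ ≤ c * τ ^ 2 / 16)
    (hC₀ : ∀ ψ ∈ Rc (3 * ρ) (3 * τ), ∀ ψ' ∈ Rc (3 * ρ) (3 * τ), ‖s ψ ψ'‖ ≤ C₀)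
    {t : ℝ} {F : ℂ → ℂ} (ht0 : 0 ≤ t) (hF : DifferentiableOn ℂ F (Rc (3 * ρ) (3 * τ)))
    (hev : ∀ ψ ∈ Rc (3 * ρ) (3 * τ), F (-ψ) = F ψ)
    (hcl : ∀ ψ ∈ Rc (3 * ρ) (3 * τ), ‖F ψ - F 0 - t * (s 0 ψ - s 0 0)‖ ≤ t * ε₀) :
    (∀ ψ ∈ Rc (3 * ρ) (3 * τ),
      GH ρ τ (c / 2 * (t + 1)) (8 * (1 + 3 * C₀) / τ ^ 2 * (t + 1)) (fun w => F w + s w ψ)) ∧
    GH ρ τ (c / 2 * t) (8 * (1 + 3 * C₀) / τ ^ 2 * t) F := by
  have hρ0 := hK.hρ.1
  have hτ0 := hK.hτ.1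
  have hτρ := hK.hτ.2
  have hc := hK.hc
  have hU := isOpen_Rc (3 * ρ) (3 * τ)
  have h0 : (0 : ℂ) ∈ Rc (3 * ρ) (3 * τ) := zero_mem_Rc (by linarith) (by linarith)
  have hC00 : 0 ≤ C₀ := (norm_nonneg _).trans (hC₀ 0 h0 0 h0)
  have hsub : Rc (2 * ρ) (2 * τ) ⊆ Rc (3 * ρ) (3 * τ) := Rc_mono (by linarith) (by linarith)
  -- F = (F 0 + t (s(., 0) - s 0 0)) + E
  set E : ℂ → ℂ := fun w => F w - F 0 - t * (s w 0 - s 0 0) with hE
  have hEd : DifferentiableOn ℂ E (Rc (3 * ρ) (3 * τ)) :=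
    (hF.sub_const _).sub (((s_diff1 hK h0).sub_const _).const_mul _)
  have hEb : ∀ w ∈ Rc (3 * ρ) (3 * τ), ‖E w‖ ≤ t * ε₀ := by
    intro w hw
    have := hcl w hw
    rwa [hK.sym 0 h0 w hw] at this
  have hFdd : ∀ w ∈ Rc (2 * ρ) (2 * τ), (deriv (deriv F) w).re ≤ -(c / 2 * t) := by
    intro w hw
    have e1 : deriv (deriv F) w = deriv (deriv fun z => (F 0 + t * (s z 0 - s 0 0)) + E z) w :=
      dd_congr hU (fun z _ => by simp only [hE]; ring) (hsub hw)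
    have e2 := dd_add hU (f := fun z => F 0 + t * (s z 0 - s 0 0)) (g := E)
      ((((s_diff1 hK h0).sub_const _).const_mul _).const_add _) hEd (hsub hw)
    rw [e1, e2, dd_aff, Complex.add_re, Complex.re_ofReal_mul]
    have e3 := hK.conc w (hsub hw) 0 h0
    have e4 := (Complex.re_le_norm _).trans (cauchy2 hτ0 hτρ hEd hEb hw)
    have e5 : 8 * (t * ε₀) / τ ^ 2 ≤ c / 2 * t := by
      rw [div_le_iff₀ (by positivity)]
      have := mul_le_mul_of_nonneg_left hε₂ ht0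
      linarith
    have e6 : t * (deriv (deriv fun z => s z 0) w).re ≤ t * (-c) :=
      mul_le_mul_of_nonneg_left e3 ht0
    linarith
  have hFb : ∀ w ∈ Rc (3 * ρ) (3 * τ), ‖F w - F 0‖ ≤ t * (1 + 2 * C₀) := by
    intro w hw
    have e1 : F w - F 0 = (F w - F 0 - t * (s 0 w - s 0 0)) + t * (s 0 w - s 0 0) := by ring
    rw [e1]
    have e2 : ‖(t : ℂ) * (s 0 w - s 0 0)‖ ≤ t * (2 * C₀) := by
      rw [norm_mul, Complex.norm_real, Real.norm_eq_abs, abs_of_nonneg ht0]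
      have e3 : ‖s 0 w - s 0 0‖ ≤ C₀ + C₀ :=
        (norm_sub_le _ _).trans (add_le_add (hC₀ 0 h0 w hw) (hC₀ 0 h0 0 h0))
      exact mul_le_mul_of_nonneg_left (by linarith) ht0
    refine (norm_add_le _ _).trans ?_
    have e4 : t * ε₀ ≤ t * 1 := mul_le_mul_of_nonneg_left hε₁ ht0
    linarith [hcl w hw]
  refine ⟨fun ψ hψ => ⟨?_, ?_, ?_, ?_⟩, ⟨hF, hev, hFdd, ?_⟩⟩
  · exact hF.add (s_diff1 hK hψ)
  · intro w hw
    show F (-w) + s (-w) ψ = F w + s w ψ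
    rw [hev w hw, hK.ev w hw ψ hψ]
  · intro w hw
    rw [dd_add hU hF (s_diff1 hK hψ) (hsub hw), Complex.add_re]
    have e1 := hFdd w hw
    have e2 := hK.conc w (hsub hw) ψ hψ
    linarith
  · intro w hw
    have e1 : deriv (deriv fun w => F w + s w ψ) w =
        deriv (deriv fun w => -F 0 + 1 * ((F w + s w ψ) - 0)) w := by
      rw [dd_aff, one_mul]
    rw [e1]
    refine (cauchy2 (B := (1 + 3 * C₀) * (t + 1)) hτ0 hτρ ?_ ?_ hw).trans (le_of_eq (by ring))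
    · exact (((hF.add (s_diff1 hK hψ)).sub_const _).const_mul _).const_add _
    · intro z hz
      have e2 : -F 0 + 1 * ((F z + s z ψ) - 0) = (F z - F 0) + s z ψ := by ring
      rw [e2]
      refine (norm_add_le _ _).trans ?_
      have e3 := hFb z hz
      have e4 := hC₀ z hz ψ hψ
      have e5 : 0 ≤ t * C₀ := mul_nonneg ht0 hC00
      nlinarith
  · intro w hw
    have e1 : deriv (deriv F) w = deriv (deriv fun w => -F 0 + 1 * (F w - 0)) w := by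
      rw [dd_aff, one_mul]
    rw [e1]
    refine (cauchy2 (B := (1 + 3 * C₀) * t) hτ0 hτρ ?_ ?_ hw).trans (le_of_eq (by ring))
    · exact ((hF.sub_const _).const_mul _).const_add _
    · intro z hz
      have e2 : -F 0 + 1 * (F z - 0) = F z - F 0 := by ring
      rw [e2]
      have e3 := hFb z hz
      have e5 : 0 ≤ t * C₀ := mul_nonneg ht0 hC00
      nlinarith

/-- differentiability of the second derivative at `0` in the parameter -/
theorem dds_diff (hK : KD ρ τ κ c s dl) :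
    DifferentiableOn ℂ (fun ψ => deriv (deriv (fun w => s w ψ)) 0) (Rc (3 * ρ) (3 * τ)) := by
  have hρ0 := hK.hρ.1
  have hτ0 := hK.hτ.1
  have hU := (isOpen_Rc (3 * ρ) (3 * τ)).prod (isOpen_Rc (3 * ρ) (3 * τ))
  have h0 : (0 : ℂ) ∈ Rc (3 * ρ) (3 * τ) := zero_mem_Rc (by linarith) (by linarith)
  have h1 := Pool.Agent.Helper540.differentiableOn_fderiv_apply hU (ds_joint hK) ((1 : ℂ), (0 : ℂ))
  have h2 : DifferentiableOn ℂ (fun ψ : ℂ => ((0 : ℂ), ψ)) (Rc (3 * ρ) (3 * τ)) :=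
    ((differentiable_const (0 : ℂ)).prodMk differentiable_id).differentiableOn
  have h3 := h1.comp h2 (fun ψ hψ => ⟨h0, hψ⟩)
  refine h3.congr ?_
  intro ψ hψ
  have h4 : DifferentiableAt ℂ (fun p : ℂ × ℂ => deriv (fun w => s w p.2) p.1) (0, ψ) :=
    (ds_joint hK).differentiableAt (hU.mem_nhds ⟨h0, hψ⟩)
  have h5 : HasDerivAt (fun w : ℂ => (w, ψ)) ((1 : ℂ), (0 : ℂ)) 0 :=
    (hasDerivAt_id _).prodMk (hasDerivAt_const _ ψ)
  exact (h4.hasFDerivAt.comp_hasDerivAt (0 : ℂ) h5).deriv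

end

end Pool.Agent.TH563.UV
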