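import Pool.Agent.TH563.UV.Defs
import Pool.Agent.W719.AX.Dbl

/-!
# Doubles of trees with crossing circles: statement
-/

set_option autoImplicit false

namespace Pool.Agent.TH563.UV

open Finset Filter Topology Metric
open Pool.Agent.W711.HT hiding XX
open scoped Real

/-- the mirror image: all weights negated -/
def ngb : Tb → Tb
  | .vx b a => .vx b (-a)
  | .br t c => .br (ngb t) (ngb c)

/-- the Kashaev invariant of a double -/
def S_DBLB : Prop := ∀ (t : Tb) (N : ℕ), 2 ≤ N → ∃ r : ℝ, 0 ≤ r ∧
  jt (.br t (ngb t)) N (vN N) = (-1) ^ (N - 1) * kb N ^ (2 * t.nb) * r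

end Pool.Agent.TH563.UV
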