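import Pool.Agent.W719.AX.Phs

/-!
# Highly twisted arborescent links with crossing circles: definitions

Weighted rooted planar trees whose vertices may be encircled.  At a vertex `vx b a` there are `a`
crossings of the two strands and, if `b` is true, in addition a closed component (a crossing
circle) around the two strands.
-/

set_option autoImplicit false

namespace Pool.Agent.TH563.UV

open Finset Filter Topology Matrix
open Pool.Agent.H550R3.Jones
open Pool.Agent.W711.HT hiding XX
open Pool.Agent.W719.AR (Tr Fl Gap)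
open Pool.Agent.W719.BS (rot kw belt)
open scoped Real

/-! ### Trees -/

/-- weighted trees with crossing circles -/
inductive Tb
  | vx (b : Bool) (a : ℤ)
  | br (t c : Tb)

namespace Tb

/-- weight of the root -/
def wt : Tb → ℤ
  | vx _ a => a
  | br t _ => t.wt

/-- is there a circle at the root -/
def bl : Tb → Bool
  | vx b _ => b
  | br t _ => t.bl

/-- number of children of the root -/
def nc : Tb → ℕ
  | vx _ _ => 0
  | br t _ => t.nc + 1

/-- number of edges -/
def ne : Tb → ℕ
  | vx _ _ => 0
  | br t c => t.ne + c.ne + 1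

/-- sum of the weights -/
def ws : Tb → ℤ
  | vx _ a => a
  | br t c => t.ws + c.ws

/-- number of circles -/
def nb : Tb → ℕ
  | vx b _ => if b then 1 else 0
  | br t c => t.nb + c.nb

/-- number of vertices without circle -/
def nt : Tb → ℕ
  | vx b _ => if b then 0 else 1
  | br t c => t.nt + c.nt

/-- a vertex of valence `n` and weight `a` is big -/
def BigV (K : ℝ) (b : Bool) (n : ℕ) (a : ℤ) : Prop := b = false → K ^ 2 ≤ (n : ℝ) ^ 2 + (a : ℝ) ^ 2

/-- the vertices other than the root are big -/
def Below (K : ℝ) : Tb → Prop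
  | vx _ _ => True
  | br t c => t.Below K ∧ c.Below K ∧ BigV K c.bl (c.nc + 1) c.wt

/-- all vertices are big -/
def Big (K : ℝ) (t : Tb) : Prop := t.Below K ∧ BigV K t.bl t.nc t.wt

end Tb

/-! ### The invariant -/

/-- the operator of a vertex -/
noncomputable def opv (N : ℕ) (v : ℂ) (b : Bool) (a : ℤ) :
    Matrix (Fin N × Fin N) (Fin N × Fin N) ℂ :=
  (if b then belt N v else 1) * (if 0 ≤ a then crossP N v ^ a.toNat else crossN N v ^ (-a).toNat)

/-- the operator of the tangle on `V_N ⊗ V_N` -/
noncomputable def op (N : ℕ) (v : ℂ) : Tb → Matrix (Fin N × Fin N) (Fin N × Fin N) ℂ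
  | .vx b a => opv N v b a
  | .br t c => op N v t * rot N v (op N v c)

/-- the normalised `N`-coloured Jones polynomial -/
noncomputable def jt (t : Tb) (N : ℕ) (v : ℂ) : ℂ :=
  if h : 0 < N then ptr (kw N v) (op N v t) ⟨0, h⟩ ⟨0, h⟩ else 0

/-! ### The iterated integral -/

/-- the eigenvalue of a circle, `sin (N (ψ + π)) / sin (ψ + π)` -/
noncomputable def UN (N : ℕ) (ψ : ℂ) : ℂ :=
  ∑ j ∈ range N, Complex.cos (((N : ℂ) - 1 - 2 * j) * (ψ + π))

/-- the factor of a vertex -/
noncomputable def Eb (b : Bool) (a : ℤ) (N : ℕ) (ψ : ℂ) : ℂ := Ea a N ψ * (if b then UN N ψ else 1)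

/-- one vertex and one edge -/
noncomputable def stpb (b : Bool) (a : ℤ) (X : ℕ → ℂ → ℂ) (N : ℕ) (ψ' : ℂ) : ℂ :=
  upp (1 / N) fun ψ => Eb b a N ψ * X N ψ * ker N ψ ψ' * kr N ψ

/-- product over the children of the root -/
noncomputable def XX : Tb → ℕ → ℂ → ℂ
  | .vx _ _ => fun _ _ => 1
  | .br t c => fun N ψ => XX t N ψ * stpb c.bl c.wt (XX c) N ψ

/-- the iterated integral of a tree -/
noncomputable def JT (t : Tb) (N : ℕ) : ℂ :=
  upp (1 / N) fun ψ => Eb t.bl t.wt N ψ * XX t N ψ * kr N ψ

/-- the phase of a circle -/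
noncomputable def kb (N : ℕ) : ℂ := Complex.exp (2 * π * Complex.I / N)

/-- the exact relation between the invariant and the iterated integral -/
def S_RTB : Prop := ∀ (t : Tb) (N : ℕ), 2 ≤ N → ContinuousAt (jt t N) (vN N) ∧
  jt t N (vN N) = (-1) ^ ((N - 1) * t.ne) * (Complex.I * N ^ 2 / (2 * π)) ^ (t.ne + 1) *
    Pool.Agent.W719.AR.kp N ^ t.ws * kb N ^ t.nb * JT t N

/-! ### Angle structures -/

/-- trees whose edges carry two `Fl`: the first one at the root of `t`, the second one at the root
of `c` -/
inductive AB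
  | vx (b : Bool) (a : ℤ)
  | br (t c : AB) (f g : Fl)

namespace AB

/-- the underlying tree -/
def shape : AB → Tb
  | vx b a => .vx b a
  | br t c _ _ => .br t.shape c.shape

/-- weight of the root -/
def wt : AB → ℤ
  | vx _ a => a
  | br t _ _ _ => t.wt

/-- is there a circle at the root -/
def bl : AB → Bool
  | vx b _ => b
  | br t _ _ _ => t.bl

/-- the edges at the root going to the children: the `Fl` at the root and the one at the child -/
def fl : AB → List (Fl × Fl)
  | vx _ _ => []
  | br t _ f g => t.fl ++ [(f, g)]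

end AB

/-- the conditions at a vertex of weight `w` with the edges `l` (in cyclic order) -/
def VOK (b : Bool) (w : ℤ) (l : List (Fl × Fl)) : Prop :=
  (l ++ l.take 1).IsChain Gap ∧ (∀ x ∈ l, ∀ y ∈ l, x.1.tw = y.1.tw) ∧
    (b = false → ∀ x ∈ l, (l.map fun y => y.1.cr).sum = 2 * π + w * x.1.tw)

/-- the conditions at the edges and at the vertices other than the root -/
def AB.OK : AB → Prop
  | .vx _ _ => True
  | .br t c f g => t.OK ∧ c.OK ∧ f.Pos ∧ g.Pos ∧ f.b + f.c' + (g.b + g.c') = 2 * π ∧
      VOK c.bl c.wt ((g, f) :: c.fl)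

/-- angle structures -/
def AB.IsAng (x : AB) : Prop := x.OK ∧ VOK x.bl x.wt x.fl

/-- the volume of an angle structure: every edge gives two octahedra, that is eight tetrahedra -/
noncomputable def AB.vol : AB → ℝ
  | .vx _ _ => 0
  | .br t c f g => t.vol + c.vol + 2 * (f.vol + g.vol)

end Pool.Agent.TH563.UV
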