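import Pool.Agent.TH563.UV.MainU
import Pool.Agent.TH563.UV.StepU
import Pool.Agent.TH563.UV.Prd
import Pool.Agent.TH639.J28
import Pool.Agent.W719.AX.Final
import Pool.Agent.W719.AX.Gex

/-!
# The expansion of the Kashaev invariants, from the parts
-/

set_option autoImplicit false

namespace Pool.Agent.TH563.UV

open Finset Filter Topology Metric
open Pool.Agent.W711.HT hiding XX
open Pool.Agent.W719.AR (kp)
open Pool.Agent.W719.AX (UX EXY cv)
open scoped Real

/-- expansion of the invariant; the exponent is given by the maximal volume -/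
def S_FINB : Prop := ∃ K : ℝ, 0 < K ∧ ∀ t : Tb, t.Big K → 1 ≤ t.nc →
  ∃ (V : ℝ) (v : ℂ) (y : ℕ → ℂ),
    IsGreatest {W : ℝ | ∃ y : AB, y.shape = t ∧ y.IsAng ∧ y.vol = W} V ∧
    2 * π * v.re = V ∧ y 0 ≠ 0 ∧ EXY (fun N : ℕ => jt t N (vN N)) v y

theorem finb : S_RTB → S_MAINB → S_GEOB → S_FINB := by
  rintro hrtx ⟨ρ, τ, κ, cc, s, dl, hKD, K, hK0, hM⟩ hgeo
  refine ⟨K, hK0, fun t ht hnc => ?_⟩
  obtain ⟨p, y', hp1, hp2, hp3, hy0, hux⟩ := hM t ht hnc
  have hpn : ∀ p : PB, p.shape.nc = p.nc := by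
    intro p
    induction p with
    | vx b a z => rfl
    | br t c iht _ => simpa [PB.shape, Tb.nc, PB.nc] using iht
  have hV := hgeo ρ τ κ cc s dl hKD p hp2 hp3 (by rw [← hpn, hp1]; exact hnc)
  rw [hp1] at hV
  set v' : ℂ := vt p.bl p.wt p.rz + p.vl s with hv'
  set w : ℤ := t.ws with hw
  set n : ℕ := t.ne with hn
  set c : ℂ := 3 * π * Complex.I * w / 4 + 2 * π * Complex.I * t.nb with hc
  set K0 : ℂ := (Complex.I / (2 * π)) ^ (n + 1) * (-1) ^ n * (-Complex.I) ^ w with hK0'
  have hπ : (π : ℂ) ≠ 0 := by exact_mod_cast Real.pi_ne_zero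
  have hK0n : K0 ≠ 0 := by
    rw [hK0']
    refine mul_ne_zero (mul_ne_zero (pow_ne_zero _ ?_) (pow_ne_zero _ (by norm_num)))
      (zpow_ne_zero _ (neg_ne_zero.2 Complex.I_ne_zero))
    exact div_ne_zero Complex.I_ne_zero (mul_ne_zero two_ne_zero hπ)
  have hprod := Pool.Agent.W303.AX.uxmul Unit _ _ _ _ _ hux (Pool.Agent.W962.AX.ux_exp c)
  refine ⟨2 * π * v'.re, v' + Complex.I * π - Complex.I * π * w / 4,
    fun k => K0 * cv (fun k (_ : Unit) => y' k) (fun k _ => c ^ k / (k.factorial : ℂ)) k (),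
    hV, ?_, ?_, ?_⟩
  · have e1 : (v' + Complex.I * π - Complex.I * π * w / 4).re = v'.re := by
      have a1 : (Complex.I * π).re = 0 := by simp
      have a2 : (Complex.I * π * w / 4).re = 0 := by
        have : Complex.I * π * w / 4 = Complex.I * ((π * w / 4 : ℝ) : ℂ) := by
          push_cast
          ring
        rw [this, Complex.re_mul_ofReal]
        simp
      rw [Complex.sub_re, Complex.add_re, a1, a2]
      ring
    rw [e1]
  · refine mul_ne_zero hK0n ?_
    unfold cv
    simp only [zero_add, range_one, sum_singleton, Nat.sub_zero, pow_zero, Nat.factorial_zero,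
      Nat.cast_one, div_one, mul_one]
    exact hy0
  · intro K
    obtain ⟨C, hC⟩ := hprod K
    refine ⟨‖K0‖ * C, ?_⟩
    filter_upwards [hC, eventually_ge_atTop 2] with N hN hN2
    have hN0 : (N : ℂ) ≠ 0 := by
      have : N ≠ 0 := by omega
      exact_mod_cast this
    have hNr : (0 : ℝ) < N := by
      have : 0 < N := by omega
      exact_mod_cast this
    have hsq : ((Real.sqrt N : ℝ) : ℂ) ≠ 0 := by
      have : Real.sqrt N ≠ 0 := (Real.sqrt_pos.2 hNr).ne'
      exact_mod_cast this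
    have hsq2 : ((Real.sqrt N : ℝ) : ℂ) ^ 2 = N := by
      rw [← Complex.ofReal_pow, Real.sq_sqrt hNr.le]
      simp
    have hb := hN () (Set.mem_univ _)
    -- the identity
    have key : jt t N (vN N) / (((Real.sqrt N) ^ 3 : ℝ) *
        Complex.exp (N * (v' + Complex.I * π - Complex.I * π * w / 4)))
        = K0 * ((N : ℂ) ^ (2 * n) * (Real.sqrt N : ℂ) * (-1) ^ (N * (n + 1)) *
          Complex.exp (-(N * v')) * JT t N * Complex.exp (c / N)) := by
      have hex : Complex.exp (N * (v' + Complex.I * π - Complex.I * π * w / 4))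
          = Complex.exp (N * v') * (-1) ^ N * Complex.exp (N * (-(Complex.I * π * w / 4))) := by
        have e1 : (-1 : ℂ) ^ N = Complex.exp (N * (Complex.I * π)) := by
          rw [← Complex.exp_pi_mul_I, ← Complex.exp_nat_mul]
          congr 1
          ring
        rw [e1, ← Complex.exp_add, ← Complex.exp_add]
        congr 1
        ring
      have hcube : (((Real.sqrt N) ^ 3 : ℝ) : ℂ) = (N : ℂ) * (Real.sqrt N : ℂ) := by
        push_cast
        rw [pow_succ, hsq2]
      have hexp0 := Complex.exp_ne_zero (N * v')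
      have hexp1 := Complex.exp_ne_zero (N * (-(Complex.I * π * w / 4)))
      have hm1 : ((-1 : ℂ)) ^ N ≠ 0 := pow_ne_zero _ (by norm_num)
      have hneg : Complex.exp (-(N * v')) = (Complex.exp (N * v'))⁻¹ := Complex.exp_neg _
      have hsgn : (-1 : ℂ) ^ ((N - 1) * n) = (-1) ^ n * (-1) ^ N * (-1) ^ (N * (n + 1)) := by
        obtain ⟨N', rfl⟩ : ∃ N', N = N' + 1 := ⟨N - 1, by omega⟩
        rw [Nat.add_sub_cancel, ← pow_add, ← pow_add]
        have e2 : n + (N' + 1) + (N' + 1) * (n + 1) = N' * n + 2 * (n + N' + 1) := by ring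
        rw [e2, pow_add, pow_mul (-1 : ℂ) 2]
        norm_num
      have hpow : (Complex.I * (N : ℂ) ^ 2 / (2 * π)) ^ (n + 1)
          = (Complex.I / (2 * π)) ^ (n + 1) * ((N : ℂ) ^ (2 * n) * (N : ℂ) ^ 2) := by
        rw [show Complex.I * (N : ℂ) ^ 2 / (2 * π) = Complex.I / (2 * π) * (N : ℂ) ^ 2 by ring,
          mul_pow, ← pow_mul, ← pow_add]
        congr 2
      have hkb : kb N ^ t.nb = Complex.exp ((2 * π * Complex.I * t.nb) / N) := by
        unfold kb
        rw [← Complex.exp_nat_mul]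
        congr 1
        ring
      have hcs : Complex.exp (c / N) = Complex.exp ((3 * π * Complex.I * w / 4) / N) *
          Complex.exp ((2 * π * Complex.I * t.nb) / N) := by
        rw [← Complex.exp_add, ← add_div, hc]
      rw [(hrtx t N hN2).2, hex, hcube, Pool.Agent.W962.AX.kp_zpow N _ (by omega), hkb, hneg,
        ← hw, ← hn, hcs, hsgn, hpow, hK0']
      have hm2 : ((-1 : ℂ)) ^ N * (-1) ^ N = 1 := by
        rw [← mul_pow]
        norm_num
      rw [div_eq_iff (mul_ne_zero (mul_ne_zero hN0 hsq) (mul_ne_zero (mul_ne_zero hexp0 hm1) hexp1))]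
      have hinv : (Complex.exp (N * v'))⁻¹ * Complex.exp (N * v') = 1 := inv_mul_cancel₀ hexp0
      have hN2' : (N : ℂ) ^ 2 = (N : ℂ) * ((Real.sqrt N : ℝ) : ℂ) ^ 2 := by rw [hsq2]; ring
      calc _ = (Complex.I / (2 * π)) ^ (n + 1) * (-1) ^ n * (-Complex.I) ^ w * (N : ℂ) ^ (2 * n) *
            (-1) ^ (N * (n + 1)) * JT t N * (Complex.exp ((3 * π * Complex.I * w / 4) / N) *
          Complex.exp ((2 * π * Complex.I * t.nb) / N)) * (-1) ^ N
            * Complex.exp (N * (-(Complex.I * π * w / 4))) * (N : ℂ) ^ 2 := by ring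
        _ = (Complex.I / (2 * π)) ^ (n + 1) * (-1) ^ n * (-Complex.I) ^ w * (N : ℂ) ^ (2 * n) *
            (-1) ^ (N * (n + 1)) * JT t N * (Complex.exp ((3 * π * Complex.I * w / 4) / N) *
          Complex.exp ((2 * π * Complex.I * t.nb) / N)) * (-1) ^ N
            * Complex.exp (N * (-(Complex.I * π * w / 4))) * ((N : ℂ) * ((Real.sqrt N : ℝ) : ℂ) ^ 2)
            * ((Complex.exp (N * v'))⁻¹ * Complex.exp (N * v')) := by rw [hinv, ← hN2', mul_one]
        _ = _ := by ring
    rw [key]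
    have e3 : ∑ k ∈ range K, K0 * cv (fun k (_ : Unit) => y' k)
          (fun k _ => c ^ k / (k.factorial : ℂ)) k () / (N : ℂ) ^ k
        = K0 * ∑ k ∈ range K, cv (fun k (_ : Unit) => y' k)
          (fun k _ => c ^ k / (k.factorial : ℂ)) k () / (N : ℂ) ^ k := by
      rw [Finset.mul_sum]
      exact Finset.sum_congr rfl fun k _ => mul_div_assoc _ _ _
    rw [e3, ← mul_sub, norm_mul, mul_div_assoc]
    exact mul_le_mul_of_nonneg_left hb (norm_nonneg _)

/-- the main analytic theorem from its last two parts -/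
theorem fin_of (hB : S_STEPB) (hG : S_GEOB) : S_FINB :=
  finb Pool.Agent.TH639.J28.rtb
    (mainb Pool.Agent.W719.AR.f_KER (Pool.Agent.W719.AX.f_KXC Pool.Agent.W719.AX.f_WIN) f_STEPU hB f_PRU
      (Pool.Agent.W52.AX.prdx Pool.Agent.W303.AX.uxmul)) hG

end Pool.Agent.TH563.UV
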