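import Pool.Agent.TH563.UV.Stm

/-!
# Highly twisted arborescent links with crossing circles: critical configurations and volumes
-/

set_option autoImplicit false

namespace Pool.Agent.TH563.UV

open Finset Filter Topology Metric
open Pool.Agent.W711.HT hiding XX
open Pool.Agent.W719.AX (UX)
open scoped Real

/-- trees whose vertices carry a complex number (the critical point) -/
inductive PB
  | vx (b : Bool) (a : ℤ) (z : ℂ)
  | br (t c : PB)

/-- the term of a vertex in the value -/
noncomputable def vt (b : Bool) (a : ℤ) (z : ℂ) : ℂ :=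
  if b then π * Complex.I else Complex.I * a * z ^ 2 / (4 * π) + Complex.I * z

/-- the condition at a vertex; `g` is the derivative of the sum of the terms of the edges -/
def VC (ρ τ : ℝ) (b : Bool) (a : ℤ) (z g : ℂ) : Prop :=
  (b = true → z = 0) ∧
  (b = false → CPu ρ τ (1 / 10) z ∧ Complex.I * a * z / (2 * π) + Complex.I + g = 0)

namespace PB

/-- the underlying tree -/
def shape : PB → Tb
  | vx b a _ => .vx b a
  | br t c => .br t.shape c.shape

/-- weight of the root -/
def wt : PB → ℤ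
  | vx _ a _ => a
  | br t _ => t.wt

/-- is there a circle at the root -/
def bl : PB → Bool
  | vx b _ _ => b
  | br t _ => t.bl

/-- the number at the root -/
def rz : PB → ℂ
  | vx _ _ z => z
  | br t _ => t.rz

/-- number of children of the root -/
def nc : PB → ℕ
  | vx _ _ _ => 0
  | br t _ => t.nc + 1

/-- derivative, in the variable of the root, of the value -/
noncomputable def gs (s : ℂ → ℂ → ℂ) : PB → ℂ
  | vx _ _ _ => 0
  | br t c => t.gs s + deriv (fun w => s c.rz w) t.rz

/-- the value without the term of the root -/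
noncomputable def vl (s : ℂ → ℂ → ℂ) : PB → ℂ
  | vx _ _ _ => 0
  | br t c => t.vl s + (vt c.bl c.wt c.rz + c.vl s + s c.rz t.rz)

/-- the conditions at the vertices other than the root -/
def Crt (s : ℂ → ℂ → ℂ) (ρ τ : ℝ) : PB → Prop
  | vx _ _ _ => True
  | br t c => t.Crt s ρ τ ∧ c.Crt s ρ τ ∧
      VC ρ τ c.bl c.wt c.rz (c.gs s + deriv (fun w => s w t.rz) c.rz)

end PB

/-- the expansion of the iterated integral, with the value at a critical configuration as
exponent -/
def S_MAINB : Prop := ∃ (ρ τ κ c : ℝ) (s dl : ℂ → ℂ → ℂ), KD ρ τ κ c s dl ∧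
  ∃ K : ℝ, 0 < K ∧ ∀ t : Tb, t.Big K → 1 ≤ t.nc →
    ∃ (p : PB) (y : ℕ → ℂ), p.shape = t ∧ p.Crt s ρ τ ∧ VC ρ τ p.bl p.wt p.rz (p.gs s) ∧ y 0 ≠ 0 ∧
      UX (fun N (_ : Unit) => (N : ℂ) ^ (2 * t.ne) * (Real.sqrt N : ℂ) * (-1) ^ (N * (t.ne + 1)) *
        Complex.exp (-(N * (vt p.bl p.wt p.rz + p.vl s))) * JT t N) (fun k _ => y k) Set.univ

/-- the value at a critical configuration is the maximal volume of the angle structures -/
def S_GEOB : Prop := ∀ (ρ τ κ c : ℝ) (s dl : ℂ → ℂ → ℂ), KD ρ τ κ c s dl →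
  ∀ p : PB, p.Crt s ρ τ → VC ρ τ p.bl p.wt p.rz (p.gs s) → 1 ≤ p.nc →
    IsGreatest {W : ℝ | ∃ y : AB, y.shape = p.shape ∧ y.IsAng ∧ y.vol = W}
      (2 * π * (vt p.bl p.wt p.rz + p.vl s).re)

end Pool.Agent.TH563.UV
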