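import Pool.Agent.TH563.UV.Stm
import Pool.Agent.W352.AX.LocG

/-! # Localisation of the integral at the critical point (as W352.AX.LocG, any weight) -/

set_option autoImplicit false
set_option maxHeartbeats 1000000

namespace Pool.Agent.TH563.UV

open Filter Finset Topology Metric
open Pool.Agent.W711.HT hiding XX
open Pool.Agent.W85.HT (uu pp)
open Pool.Agent.W719.AX (ig)
open Pool.Agent.W352.AX hiding locg
open scoped Real

/-- localisation of the integral at the critical point, uniformly in a parameter -/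
def S_LOCU : Prop := ∀ (ρ τ c0 : ℝ) (a : ℤ) (E : Type) [MetricSpace E] (K : Set E)
  (Y : ℕ → ℂ → E → ℂ) (G : ℂ → E → ℂ) (z : E → ℂ), 0 < ρ → ρ ≤ 1 / 4 → 0 < τ → 0 < c0 →
  IsCompact K →
  (∀ N, ∀ p ∈ K, Differentiable ℂ (fun w => Y N w p)) →
  (∀ p ∈ K, DifferentiableOn ℂ (fun w => G w p) (Rc (2 * ρ) (2 * τ))) →
  ContinuousOn (fun x : ℂ × E => G x.1 x.2) (Rc (2 * ρ) (2 * τ) ×ˢ K) →
  ContinuousOn z K →
  (∀ ε : ℝ, 0 < ε → ∀ᶠ N : ℕ in atTop, ∀ w ∈ Rc (2 * ρ) (2 * τ), ∀ p ∈ K,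
    Y N w p ≠ 0 ∧ |Real.log ‖Y N w p‖ - N * (G w p).re| ≤ ε * N) →
  (∀ p ∈ K, (z p ∈ Rc ρ τ ∧ c0 ≤ (z p).im) ∧ SAD a (fun w => G w p) ρ (z p)) →
  (∃ κ' : ℝ, 0 < κ' ∧ ∀ᶠ N : ℕ in atTop, ∀ p ∈ K, ∀ x y : ℝ, ρ ≤ |x| → |x| ≤ π → |y| ≤ 1 / N →
    ‖Y N (x + y * Complex.I) p‖ ≤ Real.exp (N * ((qq a (fun w => G w p) (z p)).re - κ'))) →
  ∀ δ : ℝ, 0 < δ → (∀ p ∈ K, |(z p).re| + δ ≤ ρ) →
  ∃ κ' : ℝ, 0 < κ' ∧ ∀ᶠ N : ℕ in atTop, ∀ p ∈ K,
    ‖(upp (1 / N) fun w => Ea a N w * Y N w p * kr N w) -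
      ∫ x in (-δ)..δ, ig a N (z p + x) * Y N (z p + x) p‖ ≤
      Real.exp (N * ((qq a (fun w => G w p) (z p)).re - κ'))

theorem locu : S_UPB → S_LOCU := by
  intro hU ρ τ c0 a E _ K Y G z hρ hρ4 hτ hc0p hK hYd hGd hGc hzc hMW hCS hfar δ hδ hδρ
  obtain ⟨C1, hC1, hU1⟩ := hU a
  have hπ := Real.pi_gt_three
  have hU2 := hU1 ρ hρ (by linarith)
  obtain ⟨κ0, hκ0, hfar⟩ := hfar
  have him : ∀ p ∈ K, c0 ≤ (z p).im ∧ (z p).im < τ ∧ |(z p).re| < ρ := by
    intro p hp
    have h := (hCS p hp).1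
    refine ⟨h.2, ?_, h.1.1⟩
    exact lt_of_le_of_lt (le_abs_self _) h.1.2
  have hqc : ContinuousOn (fun x : ℂ × E => (qq a (fun w => G w x.2) x.1).re)
      (Rc (2 * ρ) (2 * τ) ×ˢ K) := by
    apply Complex.continuous_re.comp_continuousOn
    unfold qq
    apply ContinuousOn.add _ hGc
    fun_prop
  have hVc : ContinuousOn (fun x : E × ℝ => (qq a (fun w => G w x.1) (z x.1)).re)
      (K ×ˢ (Set.univ : Set ℝ)) := by
    refine hqc.comp (f := fun x : E × ℝ => (z x.1, x.1))
      (ContinuousOn.prodMk (hzc.comp continuousOn_fst fun x hx => hx.1) continuousOn_fst) ?_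
    intro x hx
    have h := him x.1 hx.1
    refine ⟨⟨?_, ?_⟩, hx.1⟩
    · show |(z x.1).re| < 2 * ρ
      linarith [h.2.2]
    · show |(z x.1).im| < 2 * τ
      rw [abs_of_pos (by linarith)]
      linarith
  -- the gap on the sides
  have hsd : ∀ r : ℝ, |r| ≤ ρ → (∀ p ∈ K, ∀ y : ℝ, 0 ≤ y → y ≤ (z p).im →
      (qq a (fun w => G w p) (r + y * Complex.I)).re < (qq a (fun w => G w p) (z p)).re) →
      ∃ κ : ℝ, 0 < κ ∧ ∀ p ∈ K, ∀ y : ℝ, 0 ≤ y → y ≤ (z p).im →
        (qq a (fun w => G w p) (r + y * Complex.I)).re ≤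
          (qq a (fun w => G w p) (z p)).re - κ := by
    intro r hr hlt
    have hc : ContinuousOn (fun x : E × ℝ => (qq a (fun w => G w x.1) (z x.1)).re -
        (qq a (fun w => G w x.1) (r + ((x.2 * (z x.1).im : ℝ) : ℂ) * Complex.I)).re)
        (K ×ˢ Set.Icc 0 1) := by
      apply ContinuousOn.sub (hVc.mono (Set.prod_mono_right (Set.subset_univ _)))
      have hz' : ContinuousOn (fun x : E × ℝ => z x.1) (K ×ˢ Set.Icc (0 : ℝ) 1) :=
        hzc.comp continuousOn_fst fun x hx => hx.1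
      refine hqc.comp (f := fun x : E × ℝ =>
        ((r : ℂ) + ((x.2 * (z x.1).im : ℝ) : ℂ) * Complex.I, x.1))
        (ContinuousOn.prodMk ?_ continuousOn_fst) ?_
      · have h1 : ContinuousOn (fun x : E × ℝ => x.2 * (z x.1).im) (K ×ˢ Set.Icc (0 : ℝ) 1) :=
          continuousOn_snd.mul (Complex.continuous_im.comp_continuousOn hz')
        exact continuousOn_const.add ((Complex.continuous_ofReal.comp_continuousOn h1).mul
          continuousOn_const)
      · intro x hx
        have h := him x.1 hx.1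
        have hx2 := hx.2
        rw [Set.mem_Icc] at hx2
        refine ⟨⟨?_, ?_⟩, hx.1⟩
        · show |((r : ℂ) + ((x.2 * (z x.1).im : ℝ) : ℂ) * Complex.I).re| < 2 * ρ
          rw [Pool.Agent.W85.HT.xy_re]
          linarith
        · show |((r : ℂ) + ((x.2 * (z x.1).im : ℝ) : ℂ) * Complex.I).im| < 2 * τ
          rw [Pool.Agent.W85.HT.xy_im, abs_of_nonneg (mul_nonneg hx2.1 (by linarith))]
          nlinarith [hx2.2, h.1, h.2.1]
    obtain ⟨κ, h1, h2⟩ := (hK.prod isCompact_Icc).exists_forall_le' hc (a := 0) (by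
      intro x hx
      have h := him x.1 hx.1
      have hx2 := hx.2
      rw [Set.mem_Icc] at hx2
      have := hlt x.1 hx.1 (x.2 * (z x.1).im) (mul_nonneg hx2.1 (by linarith))
        (by nlinarith [hx2.2, h.1, h.2.1])
      exact sub_pos.2 this)
    refine ⟨κ, h1, fun p hp y hy hy' => ?_⟩
    have h := him p hp
    have hzp : 0 < (z p).im := by linarith
    have h3 := h2 (p, y / (z p).im) ⟨hp, div_nonneg hy hzp.le, (div_le_one hzp).2 hy'⟩
    simp only at h3
    rw [div_mul_cancel₀ y hzp.ne'] at h3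
    linarith
  obtain ⟨κ1, hκ1, hs1⟩ := hsd ρ (by rw [abs_of_pos hρ]) (fun p hp y hy hy' =>
    ((hCS p hp).2.side y hy hy').1)
  obtain ⟨κ1', hκ1', hs1'⟩ := hsd (-ρ) (by rw [abs_neg, abs_of_pos hρ]) (fun p hp y hy hy' => by
    have := ((hCS p hp).2.side y hy hy').2
    rw [Complex.ofReal_neg]
    exact this)
  -- the gap on the line
  obtain ⟨κ2, hκ2, hl2⟩ : ∃ κ : ℝ, 0 < κ ∧ ∀ p ∈ K, ∀ x : ℝ, |x| ≤ ρ → δ ≤ |x - (z p).re| →
      (qq a (fun w => G w p) (x + (z p).im * Complex.I)).re ≤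
        (qq a (fun w => G w p) (z p)).re - κ := by
    obtain ⟨S, hS⟩ : ∃ S : Set (E × ℝ), S = (K ×ˢ Set.Icc (-ρ) ρ) ∩
      (fun x : E × ℝ => |x.2 - (z x.1).re|) ⁻¹' Set.Ici δ := ⟨_, rfl⟩
    have hKI : IsCompact (K ×ˢ Set.Icc (-ρ) ρ) := hK.prod isCompact_Icc
    have hz' : ContinuousOn (fun x : E × ℝ => z x.1) (K ×ˢ Set.Icc (-ρ) ρ) :=
      hzc.comp continuousOn_fst fun x hx => hx.1
    have hSc : IsCompact S := by
      rw [hS]
      refine hKI.of_isClosed_subset ?_ Set.inter_subset_left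
      apply ContinuousOn.preimage_isClosed_of_isClosed _ hKI.isClosed isClosed_Ici
      apply ContinuousOn.abs
      exact continuousOn_snd.sub (Complex.continuous_re.comp_continuousOn hz')
    have hc : ContinuousOn (fun x : E × ℝ => (qq a (fun w => G w x.1) (z x.1)).re -
        (qq a (fun w => G w x.1) ((x.2 : ℂ) + (z x.1).im * Complex.I)).re) S := by
      apply ContinuousOn.sub (hVc.mono fun x hx => by
        rw [hS] at hx
        exact ⟨hx.1.1, Set.mem_univ _⟩)
      refine hqc.comp (f := fun x : E × ℝ =>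
        ((x.2 : ℂ) + ((z x.1).im : ℂ) * Complex.I, x.1))
        (ContinuousOn.prodMk ?_ continuousOn_fst) ?_
      · have hz2 : ContinuousOn (fun x : E × ℝ => (z x.1).im) S :=
          (Complex.continuous_im.comp_continuousOn hz').mono (by rw [hS]; exact Set.inter_subset_left)
        exact (Complex.continuous_ofReal.comp_continuousOn continuousOn_snd).add
          ((Complex.continuous_ofReal.comp_continuousOn hz2).mul continuousOn_const)
      · intro x hx
        rw [hS] at hx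
        have h := him x.1 hx.1.1
        have hx2 := hx.1.2
        rw [Set.mem_Icc, ← abs_le] at hx2
        refine ⟨⟨?_, ?_⟩, hx.1.1⟩
        · show |((x.2 : ℂ) + ((z x.1).im : ℂ) * Complex.I).re| < 2 * ρ
          rw [Pool.Agent.W85.HT.xy_re]
          linarith
        · show |((x.2 : ℂ) + ((z x.1).im : ℂ) * Complex.I).im| < 2 * τ
          rw [Pool.Agent.W85.HT.xy_im, abs_of_pos (by linarith)]
          linarith
    obtain ⟨κ, h1, h2⟩ := hSc.exists_forall_le' hc (a := 0) (by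
      intro x hx
      rw [hS] at hx
      have hx2 := hx.1.2
      rw [Set.mem_Icc, ← abs_le] at hx2
      have hx3 : δ ≤ |x.2 - (z x.1).re| := hx.2
      have := (hCS x.1 hx.1.1).2.line x.2 hx2 (by
        intro h0
        rw [h0, sub_self, abs_zero] at hx3
        linarith)
      exact sub_pos.2 this)
    refine ⟨κ, h1, fun p hp x hx hx' => ?_⟩
    have h3 := h2 (p, x) (by
      rw [hS]
      refine ⟨⟨hp, ?_⟩, hx'⟩
      rw [Set.mem_Icc, ← abs_le]
      exact hx)
    simp only at h3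
    linarith
  -- on the whole line
  have hl1 : ∀ p ∈ K, ∀ x : ℝ, |x| ≤ ρ → (qq a (fun w => G w p) (x + (z p).im * Complex.I)).re ≤
      (qq a (fun w => G w p) (z p)).re := by
    intro p hp x hx
    by_cases h : x = (z p).re
    · rw [h, Complex.re_add_im]
    · exact ((hCS p hp).2.line x hx h).le
  obtain ⟨κ, hκd⟩ : ∃ κ : ℝ, κ = min (min κ0 c0) (min (min κ1 κ1') κ2) := ⟨_, rfl⟩
  have hκ : 0 < κ := by
    rw [hκd]
    exact lt_min (lt_min hκ0 hc0p) (lt_min (lt_min hκ1 hκ1') hκ2)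
  have hκa : κ ≤ κ0 := by rw [hκd]; exact (min_le_left _ _).trans (min_le_left _ _)
  have hκb : κ ≤ c0 := by rw [hκd]; exact (min_le_left _ _).trans (min_le_right _ _)
  have hκc : κ ≤ min κ1 κ1' := by rw [hκd]; exact (min_le_right _ _).trans (min_le_left _ _)
  have hκe : κ ≤ κ2 := by rw [hκd]; exact (min_le_right _ _).trans (min_le_right _ _)
  refine ⟨κ / 2, by positivity, ?_⟩
  have hτe : 0 < Real.exp τ := Real.exp_pos _
  have hev1 : ∀ᶠ N : ℕ in atTop, (1 : ℝ) / N ≤ c0 := by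
    have : Tendsto (fun N : ℕ => (1 : ℝ) / (N : ℝ)) atTop (𝓝 0) :=
      tendsto_const_div_atTop_nhds_zero_nat _
    exact this.eventually_le_const hc0p
  filter_upwards [hMW (κ / 4) (by positivity), hU2, hfar, hev1, eventually_gt_atTop 0,
    Pool.Agent.W85.HT.ev_exp hc0p 2,
    Pool.Agent.W85.HT.ev_exp (show 0 < κ / 4 by positivity)
      (C1 + 16 * Real.exp τ * τ + 40 * Real.exp τ * ρ + 8 * Real.exp τ * ρ)]
    with N hN1 hN2 hN3 hN4 hN5 hN6 hN7 p hp
  have hN' : (0 : ℝ) < N := by exact_mod_cast hN5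
  obtain ⟨h01, h02, h03⟩ := him p hp
  have hδp := hδρ p hp
  obtain ⟨V, hV⟩ : ∃ V : ℝ, V = (qq a (fun w => G w p) (z p)).re := ⟨_, rfl⟩
  obtain ⟨H, hH⟩ : ∃ H : ℝ, H = (z p).im := ⟨_, rfl⟩
  obtain ⟨R, hR⟩ : ∃ R : ℝ, R = (z p).re := ⟨_, rfl⟩
  have hs1 := hs1 p hp
  have hs1' := hs1' p hp
  have hl2 := hl2 p hp
  have hl1 := hl1 p hp
  rw [← hV, ← hH] at hs1 hs1' hl1 hl2
  rw [← hR] at hl2 hδp h03
  rw [← hH] at h01 h02
  rw [← hV]
  have hHp : 0 < H := by linarith
  -- the basic bound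
  have hb : ∀ w ∈ Rc (2 * ρ) (2 * τ), ‖Ea a N w * Y N w p * uu N w‖ ≤
      Real.exp (N * ((qq a (fun w => G w p) w).re + κ / 4)) := fun w hw =>
    norm_EY a (G := fun w => G w p) (hN1 w hw p hp)
  have hmem : ∀ x y : ℝ, |x| ≤ ρ → 0 ≤ y → y ≤ H → ((x : ℂ) + y * Complex.I) ∈ Rc (2 * ρ) (2 * τ) := by
    intro x y hx hy hy'
    refine ⟨?_, ?_⟩
    · rw [Pool.Agent.W85.HT.xy_re]
      linarith
    · rw [Pool.Agent.W85.HT.xy_im, abs_of_nonneg hy]
      linarith
  have hYdp := hYd N p hp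
  -- differentiability
  have hEd : Differentiable ℂ (Ea a N) := by
    unfold Ea
    fun_prop
  have hEY : Differentiable ℂ (fun w => Ea a N w * Y N w p) := hEd.mul hYdp
  have hfd : ∀ w : ℂ, 0 < w.im → DifferentiableAt ℂ (fun w => Ea a N w * Y N w p * kr N w) w := by
    intro w hw
    have h1 : DifferentiableAt ℂ (pp N) w := by
      have := Pool.Agent.W85.HT.pp_diff hN5 (U := {w : ℂ | 0 < w.im}) (fun w hw => hw)
      exact this.differentiableAt ((isOpen_lt continuous_const Complex.continuous_im).mem_nhds hw)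
    have e : (fun w => Ea a N w * Y N w p * kr N w) =
        fun w => Ea a N w * Y N w p * (uu N w * pp N w) := by
      funext w
      rw [Pool.Agent.W85.HT.kr_eq]
    rw [e]
    exact (hEY w).mul ((Pool.Agent.W85.HT.uu_diff N w).mul h1)
  -- the far part
  have hA := (hN2 (fun w => Y N w p) (Real.exp (N * (V - κ0))) hYdp.continuous).1 (by
    intro x y h1 h2 h3
    have := hN3 p hp x y h1 h2 h3
    rw [← hV] at this
    exact this)
  -- the contour
  obtain ⟨f, hf⟩ : ∃ f : ℂ → ℂ, f = fun w => Ea a N w * Y N w p * kr N w := ⟨_, rfl⟩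
  obtain ⟨g, hg⟩ : ∃ g : ℂ → ℂ, g = fun w => ig a N w * Y N w p := ⟨_, rfl⟩
  rw [← hf] at hfd
  have hB := Pool.Agent.W85.HT.rect_eq (f := f) (ρ := ρ)
    (h := 1 / N) (H := H) hρ.le (by linarith) (by
      intro w _ _ h3 _
      exact hfd w (lt_of_lt_of_le (by positivity) h3))
  have hfe : ∀ w, f w = Ea a N w * Y N w p * uu N w * pp N w := by
    intro w
    rw [hf]
    exact kr_split a N w _
  have hge : ∀ w, g w = Ea a N w * Y N w p * uu N w * (2 * Complex.sin w) := by
    intro w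
    rw [hg]
    exact ig_eq a N w _
  have hgc : Continuous g := by
    have e : g = fun w => Ea a N w * Y N w p * uu N w * (2 * Complex.sin w) := funext hge
    rw [e]
    exact (hEY.continuous.mul (Pool.Agent.W85.HT.uu_diff N).continuous).mul (by fun_prop)
  -- the sides
  have hS : ∀ r κ' : ℝ, |r| ≤ ρ → κ ≤ κ' → (∀ y : ℝ, 0 ≤ y → y ≤ H →
      (qq a (fun w => G w p) (r + y * Complex.I)).re ≤ V - κ') →
      ‖∫ y in (1 / N : ℝ)..H, f (r + y * Complex.I)‖ ≤
        8 * Real.exp τ * τ * Real.exp (N * (V - κ + κ / 4)) := by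
    intro r κ' hr hκ' hq
    have h1 : ∀ y ∈ Set.uIoc (1 / N : ℝ) H, ‖f (r + y * Complex.I)‖ ≤
        Real.exp (N * (V - κ + κ / 4)) * (8 * Real.exp τ) := by
      intro y hy
      rw [Set.uIoc_of_le (by linarith), Set.mem_Ioc] at hy
      have hy0 : 0 ≤ y := by
        have : (0 : ℝ) < 1 / N := by positivity
        linarith [hy.1]
      have h2 := hb _ (hmem r y hr hy0 hy.2)
      have h3 := Pool.Agent.W85.HT.pp_bd hN5 (H := τ) (w := r + y * Complex.I)
        (by rw [Pool.Agent.W85.HT.xy_im]; exact hy.1.le)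
        (by rw [Pool.Agent.W85.HT.xy_im]; linarith [hy.2])
      have h4 : Real.exp (N * ((qq a (fun w => G w p) (r + y * Complex.I)).re + κ / 4)) ≤
          Real.exp (N * (V - κ + κ / 4)) :=
        Real.exp_le_exp.2 (mul_le_mul_of_nonneg_left (by linarith [hq y hy0 hy.2]) hN'.le)
      rw [hfe, norm_mul]
      exact mul_le_mul (h2.trans h4) h3 (norm_nonneg _) (Real.exp_pos _).le
    have h2 := intervalIntegral.norm_integral_le_of_norm_le_const h1
    refine h2.trans ?_
    have h3 : |H - 1 / N| ≤ τ := by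
      rw [abs_of_nonneg (by linarith)]
      have : (0 : ℝ) < 1 / N := by positivity
      linarith
    calc _ ≤ Real.exp (N * (V - κ + κ / 4)) * (8 * Real.exp τ) * τ :=
          mul_le_mul_of_nonneg_left h3 (by positivity)
      _ = _ := by ring
  have hSa := hS ρ κ1 (by rw [abs_of_pos hρ]) (hκc.trans (min_le_left _ _)) hs1
  have hSb := hS (-ρ) κ1' (by rw [abs_neg, abs_of_pos hρ]) (hκc.trans (min_le_right _ _)) hs1'
  -- the line
  have hcf : ContinuousOn (fun x : ℝ => f (x + H * Complex.I)) (Set.uIcc (-ρ) ρ) := by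
    intro x _
    apply ContinuousAt.continuousWithinAt
    have h1 : ContinuousAt f (x + H * Complex.I) :=
      (hfd _ (by rw [Pool.Agent.W85.HT.xy_im]; exact hHp)).continuousAt
    exact ContinuousAt.comp (f := fun x : ℝ => (x : ℂ) + H * Complex.I) h1
      (by fun_prop)
  have hcg : Continuous (fun x : ℝ => g (x + H * Complex.I)) := hgc.comp (by fun_prop)
  have hD : ‖(∫ x in (-ρ)..ρ, f (x + H * Complex.I)) - ∫ x in (-ρ)..ρ, g (x + H * Complex.I)‖ ≤
      40 * Real.exp τ * ρ * Real.exp (N * (V + κ / 4 - c0)) := by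
    rw [← intervalIntegral.integral_sub hcf.intervalIntegrable (hcg.intervalIntegrable _ _)]
    have h1 : ∀ x ∈ Set.uIoc (-ρ) ρ, ‖f (x + H * Complex.I) - g (x + H * Complex.I)‖ ≤
        20 * Real.exp τ * Real.exp (N * (V + κ / 4 - c0)) := by
      intro x hx
      rw [Set.uIoc_of_le (by linarith), Set.mem_Ioc] at hx
      have hx' : |x| ≤ ρ := abs_le.2 ⟨hx.1.le, hx.2⟩
      have h2 := hb _ (hmem x H hx' hHp.le le_rfl)
      have hu : ‖uu N (x + H * Complex.I)‖ ≤ Real.exp (-(N * c0)) := by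
        rw [Pool.Agent.W85.HT.norm_uu, Pool.Agent.W85.HT.xy_im]
        apply Real.exp_le_exp.2
        have := mul_le_mul_of_nonneg_left h01 hN'.le
        linarith
      have hu2 : Real.exp (-(N * c0)) ≤ 1 / 2 := by
        rw [Real.exp_neg, ← one_div]
        apply one_div_le_one_div_of_le (by norm_num)
        rw [mul_comm]
        exact hN6
      have h3 := pp_sub (N := N) (w := x + H * Complex.I) (τ := τ)
        (by rw [Pool.Agent.W85.HT.xy_im]; exact hHp.le)
        (by rw [Pool.Agent.W85.HT.xy_im]; exact h02.le) (hu.trans hu2)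
      have h4 : Real.exp (N * ((qq a (fun w => G w p) (x + H * Complex.I)).re + κ / 4)) ≤
          Real.exp (N * (V + κ / 4)) :=
        Real.exp_le_exp.2 (mul_le_mul_of_nonneg_left (by linarith [hl1 x hx']) hN'.le)
      rw [hfe, hge, ← mul_sub, norm_mul]
      calc _ ≤ Real.exp (N * (V + κ / 4)) * (20 * Real.exp τ * Real.exp (-(N * c0))) :=
            mul_le_mul (h2.trans h4) (h3.trans (mul_le_mul_of_nonneg_left hu (by positivity)))
              (norm_nonneg _) (Real.exp_pos _).le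
        _ = 20 * Real.exp τ * (Real.exp (N * (V + κ / 4)) * Real.exp (-(N * c0))) := by ring
        _ = _ := by
            rw [← Real.exp_add]
            congr 2
            ring
    have h2 := intervalIntegral.norm_integral_le_of_norm_le_const h1
    refine h2.trans (le_of_eq ?_)
    rw [abs_of_nonneg (by linarith)]
    ring
  have hδl : -ρ ≤ R - δ := by linarith [(abs_le.1 (show |R| ≤ ρ - δ by linarith)).1]
  have hδr : R + δ ≤ ρ := by linarith [(abs_le.1 (show |R| ≤ ρ - δ by linarith)).2]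
  -- the outer parts
  have hO : ∀ u v : ℝ, -ρ ≤ u → u ≤ v → v ≤ ρ → (∀ x : ℝ, u ≤ x → x ≤ v → δ ≤ |x - R|) →
      ‖∫ x in u..v, g (x + H * Complex.I)‖ ≤
        4 * Real.exp τ * ρ * Real.exp (N * (V - κ2 + κ / 4)) := by
    intro u v hu huv hv hx
    have h1 : ∀ x ∈ Set.uIoc u v, ‖g (x + H * Complex.I)‖ ≤
        2 * Real.exp τ * Real.exp (N * (V - κ2 + κ / 4)) := by
      intro x hx'
      rw [Set.uIoc_of_le huv, Set.mem_Ioc] at hx'
      have hx1 : |x| ≤ ρ := abs_le.2 ⟨by linarith [hx'.1], by linarith [hx'.2]⟩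
      have h2 := hb _ (hmem x H hx1 hHp.le le_rfl)
      have h3 := Pool.Agent.W85.HT.norm_sin_le (x + H * Complex.I)
      rw [Pool.Agent.W85.HT.xy_im, abs_of_pos hHp] at h3
      have h3' : Real.exp H ≤ Real.exp τ := Real.exp_le_exp.2 h02.le
      have h4 : Real.exp (N * ((qq a (fun w => G w p) (x + H * Complex.I)).re + κ / 4)) ≤
          Real.exp (N * (V - κ2 + κ / 4)) :=
        Real.exp_le_exp.2 (mul_le_mul_of_nonneg_left
          (by linarith [hl2 x hx1 (hx x hx'.1.le hx'.2)]) hN'.le)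
      rw [hge, norm_mul, norm_mul 2, Complex.norm_ofNat]
      calc _ ≤ Real.exp (N * (V - κ2 + κ / 4)) * (2 * Real.exp τ) :=
            mul_le_mul (h2.trans h4) (by linarith) (by positivity) (Real.exp_pos _).le
        _ = _ := by ring
    have h2 := intervalIntegral.norm_integral_le_of_norm_le_const h1
    refine h2.trans ?_
    have h3 : |v - u| ≤ 2 * ρ := by
      rw [abs_of_nonneg (by linarith)]
      linarith
    calc _ ≤ 2 * Real.exp τ * Real.exp (N * (V - κ2 + κ / 4)) * (2 * ρ) :=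
          mul_le_mul_of_nonneg_left h3 (by positivity)
      _ = _ := by ring
  have hO1 := hO (-ρ) (R - δ) le_rfl hδl (by linarith) (by
    intro x _ hx
    rw [abs_sub_comm]
    exact le_trans (by linarith) (le_abs_self _))
  have hO2 := hO (R + δ) ρ (by linarith) hδr le_rfl (by
    intro x hx _
    exact le_trans (by linarith) (le_abs_self _))
  have hsplit : (∫ x in (-ρ)..ρ, g (x + H * Complex.I)) =
      (∫ x in (-ρ)..(R - δ), g (x + H * Complex.I)) +
        (∫ x in (R - δ)..(R + δ), g (x + H * Complex.I)) +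
        ∫ x in (R + δ)..ρ, g (x + H * Complex.I) := by
    rw [intervalIntegral.integral_add_adjacent_intervals (hcg.intervalIntegrable _ _)
      (hcg.intervalIntegrable _ _), intervalIntegral.integral_add_adjacent_intervals
      (hcg.intervalIntegrable _ _) (hcg.intervalIntegrable _ _)]
  have hsub : (∫ x in (-δ)..δ, ig a N (z p + x) * Y N (z p + x) p) =
      ∫ x in (R - δ)..(R + δ), g (x + H * Complex.I) := by
    have h1 := intervalIntegral.integral_comp_add_left (a := -δ) (b := δ)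
      (fun x : ℝ => g (x + H * Complex.I)) R
    rw [sub_eq_add_neg, ← h1]
    apply intervalIntegral.integral_congr
    intro x _
    show ig a N (z p + x) * Y N (z p + x) p = g (((R + x : ℝ) : ℂ) + H * Complex.I)
    have e : (((R + x : ℝ) : ℂ) + H * Complex.I) = z p + x := by
      rw [hR, hH]
      push_cast
      conv_rhs => rw [← Complex.re_add_im (z p)]
      ring
    rw [e, hg]
  rw [hsub]
  have hfin := sum4 (c1 := C1) (c2 := 16 * Real.exp τ * τ) (c3 := 40 * Real.exp τ * ρ)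
    (c4 := 8 * Real.exp τ * ρ) (V := V) (N := N) hC1.le (by positivity) (by positivity)
    (by positivity) hκ hκa le_rfl hκe hκb hN7
  refine le_trans ?_ hfin
  have e : (upp (1 / N) fun w => Ea a N w * Y N w p * kr N w) -
      ∫ x in (R - δ)..(R + δ), g (x + H * Complex.I) =
      ((upp (1 / N) fun w => Ea a N w * Y N w p * kr N w) -
        ∫ x in (-ρ)..ρ, f (x + (1 / N : ℝ) * Complex.I)) +
      (Complex.I * (∫ y in (1 / N : ℝ)..H, f (-ρ + y * Complex.I)) -
       Complex.I * (∫ y in (1 / N : ℝ)..H, f (ρ + y * Complex.I))) +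
      ((∫ x in (-ρ)..ρ, f (x + H * Complex.I)) - ∫ x in (-ρ)..ρ, g (x + H * Complex.I)) +
      ((∫ x in (-ρ)..(R - δ), g (x + H * Complex.I)) +
        ∫ x in (R + δ)..ρ, g (x + H * Complex.I)) := by
    rw [hB, hsplit]
    ring
  rw [e]
  have hA' : ‖(upp (1 / N) fun w => Ea a N w * Y N w p * kr N w) -
        ∫ x in (-ρ)..ρ, f (x + (1 / N : ℝ) * Complex.I)‖ ≤ C1 * Real.exp (N * (V - κ0)) := by
    rw [hf]
    exact hA
  have hB' : ‖Complex.I * (∫ y in (1 / N : ℝ)..H, f (-ρ + y * Complex.I)) -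
       Complex.I * (∫ y in (1 / N : ℝ)..H, f (ρ + y * Complex.I))‖ ≤
       16 * Real.exp τ * τ * Real.exp (N * (V - κ + κ / 4)) := by
    refine (norm_sub_le _ _).trans ?_
    rw [norm_mul, norm_mul, Complex.norm_I, one_mul, one_mul]
    rw [Complex.ofReal_neg] at hSb
    linarith
  have hE' : ‖(∫ x in (-ρ)..(R - δ), g (x + H * Complex.I)) +
        ∫ x in (R + δ)..ρ, g (x + H * Complex.I)‖ ≤
        8 * Real.exp τ * ρ * Real.exp (N * (V - κ2 + κ / 4)) := by
    refine (norm_add_le _ _).trans ?_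
    linarith
  refine (norm_add_le _ _).trans ?_
  have h5 := norm_add_le ((upp (1 / N) fun w => Ea a N w * Y N w p * kr N w) -
        ∫ x in (-ρ)..ρ, f (x + (1 / N : ℝ) * Complex.I))
      (Complex.I * (∫ y in (1 / N : ℝ)..H, f (-ρ + y * Complex.I)) -
       Complex.I * (∫ y in (1 / N : ℝ)..H, f (ρ + y * Complex.I)))
  have h6 := norm_add_le (((upp (1 / N) fun w => Ea a N w * Y N w p * kr N w) -
        ∫ x in (-ρ)..ρ, f (x + (1 / N : ℝ) * Complex.I)) +
      (Complex.I * (∫ y in (1 / N : ℝ)..H, f (-ρ + y * Complex.I)) -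
       Complex.I * (∫ y in (1 / N : ℝ)..H, f (ρ + y * Complex.I))))
      ((∫ x in (-ρ)..ρ, f (x + H * Complex.I)) - ∫ x in (-ρ)..ρ, g (x + H * Complex.I))
  linarith

end Pool.Agent.TH563.UV
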