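import Pool.Agent.TH563.UV.Geo
import Pool.Agent.W719.AX.FinA

/-!
# The induction over the tree
-/

set_option autoImplicit false

namespace Pool.Agent.TH563.UV

open Finset Filter Topology Metric
open Pool.Agent.W711.HT hiding XX
open Pool.Agent.W719.AX (UX GX KXD S_KXC S_PRDX)
open scoped Real

theorem pb_wt (p : PB) : p.shape.wt = p.wt := by
  induction p with
  | vx b a z => rfl
  | br t c iht _ => simpa [PB.shape, Tb.wt, PB.wt] using iht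

theorem pb_bl (p : PB) : p.shape.bl = p.bl := by
  induction p with
  | vx b a z => rfl
  | br t c iht _ => simpa [PB.shape, Tb.bl, PB.bl] using iht

theorem Rc_subU {ρ τ : ℝ} (hρ : 0 < ρ) (hτ : 0 < τ) {z : ℂ} (hz : z ∈ Rc ρ τ) :
    z ∈ Rc (3 * ρ) (3 * τ) := by
  obtain ⟨h1, h2⟩ := hz
  exact ⟨by linarith, by linarith⟩

/-- the induction over the tree -/
theorem mainu_ind {ρ τ κ c : ℝ} {s dl : ℂ → ℂ → ℂ} (hK : KD ρ τ κ c s dl)
    {ε₀ K ρ₂ τ₂ : ℝ}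
    (h0 : GoodU ρ τ κ ε₀ s 0 (fun _ _ => 1) (fun _ => 0))
    (hp : ∀ (t : ℕ) (X Y : ℕ → ℂ → ℂ) (F G : ℂ → ℂ), GoodU ρ τ κ ε₀ s t X F →
      GoodU ρ τ κ ε₀ s 1 Y G →
      GoodU ρ τ κ ε₀ s (t + 1) (fun N ψ => X N ψ * Y N ψ) (fun ψ => F ψ + G ψ))
    (h0x : ∃ A : ℕ → ℂ → ℂ, GX ρ₂ τ₂ 0 (fun _ _ => 1) (fun _ => 0) A)
    (hpx : ∀ (m m' : ℕ) (X Y : ℕ → ℂ → ℂ) (F G : ℂ → ℂ) (A B : ℕ → ℂ → ℂ),
      GX ρ₂ τ₂ m X F A → GX ρ₂ τ₂ m' Y G B →
      ∃ C : ℕ → ℂ → ℂ, GX ρ₂ τ₂ (m + m') (fun N ψ => X N ψ * Y N ψ) (fun ψ => F ψ + G ψ) C)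
    (h1 : ∀ (t m : ℕ) (X : ℕ → ℂ → ℂ) (F : ℂ → ℂ) (A : ℕ → ℂ → ℂ),
      GoodU ρ τ κ ε₀ s t X F → GX ρ₂ τ₂ m X F A →
      ∀ a : ℤ, K ^ 2 ≤ ((t + 1 : ℕ) : ℝ) ^ 2 + (a : ℝ) ^ 2 →
        ∃ (F' : ℂ → ℂ) (zs : ℂ → ℂ) (A' : ℕ → ℂ → ℂ),
        GoodU ρ τ κ ε₀ s 1 (stpb false a X) F' ∧ GX ρ₂ τ₂ (m + 1) (stpb false a X) F' A' ∧
        ∀ ψ' ∈ Rc (3 * ρ) (3 * τ), CPu ρ τ (1 / 10) (zs ψ') ∧
          Complex.I * a * zs ψ' / (2 * π) + Complex.I + deriv F (zs ψ') +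
            deriv (fun w => s w ψ') (zs ψ') = 0 ∧
          F' ψ' = qq a F (zs ψ') + s (zs ψ') ψ' ∧
          HasDerivAt F' (deriv (fun w => s (zs ψ') w) ψ') ψ')
    (h2 : ∀ (t m : ℕ) (X : ℕ → ℂ → ℂ) (F : ℂ → ℂ) (A : ℕ → ℂ → ℂ),
      GoodU ρ τ κ ε₀ s t X F → GX ρ₂ τ₂ m X F A → ∀ a : ℤ, ∃ A' : ℕ → ℂ → ℂ,
        GoodU ρ τ κ ε₀ s 1 (stpb true a X) (fun ψ => F 0 + s 0 ψ + π * Complex.I) ∧
        GX ρ₂ τ₂ (m + 1) (stpb true a X) (fun ψ => F 0 + s 0 ψ + π * Complex.I) A')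
    (t : Tb) : t.Below K → ∃ (F : ℂ → ℂ) (A : ℕ → ℂ → ℂ), GoodU ρ τ κ ε₀ s t.nc (XX t) F ∧
      GX ρ₂ τ₂ t.ne (XX t) F A ∧
      ∀ ψ ∈ Rc (3 * ρ) (3 * τ), ∃ p : PB, p.shape = t ∧ p.rz = ψ ∧ p.Crt s ρ τ ∧
        F ψ = p.vl s ∧ HasDerivAt F (p.gs s) ψ := by
  have hρ := hK.hρ.1
  have hτ := hK.hτ.1
  have m0 : (0 : ℂ) ∈ Rc (3 * ρ) (3 * τ) := by
    refine ⟨?_, ?_⟩
    · rw [Complex.zero_re, abs_zero]; linarith
    · rw [Complex.zero_im, abs_zero]; linarith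
  have hopen : IsOpen (Rc (3 * ρ) (3 * τ)) := Pool.Agent.W688.AX.isOpen_Rcx _ _
  induction t with
  | vx b a =>
    intro _
    obtain ⟨A, hA⟩ := h0x
    refine ⟨fun _ => 0, A, ?_, ?_, ?_⟩
    · simpa [XX, Tb.nc] using h0
    · exact hA
    · intro ψ _
      exact ⟨.vx b a ψ, rfl, rfl, trivial, rfl, by simpa [PB.gs] using hasDerivAt_const ψ (0 : ℂ)⟩
  | br t c iht ihc =>
    intro hB
    obtain ⟨hBt, hBc, hD⟩ := hB
    obtain ⟨F, A, hG, hA, hcr⟩ := iht hBt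
    obtain ⟨Fc, Ac, hGc, hAc, hcrc⟩ := ihc hBc
    rcases hb : c.bl with _ | _
    · obtain ⟨F', zs, A', hG', hA', hcr'⟩ := h1 c.nc c.ne (XX c) Fc Ac hGc hAc c.wt (hD hb)
      obtain ⟨A'', hA''⟩ := hpx t.ne (c.ne + 1) (XX t) (stpb false c.wt (XX c)) F F' A A' hA hA'
      refine ⟨fun ψ => F ψ + F' ψ, A'', ?_, ?_, ?_⟩
      · have := hp t.nc (XX t) (stpb false c.wt (XX c)) F F' hG hG'
        simpa only [XX, Tb.nc, hb] using this
      · have h3 : (Tb.br t c).ne = t.ne + (c.ne + 1) := by simp only [Tb.ne]; ring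
        rw [h3]
        simpa only [XX, hb] using hA''
      · intro ψ hψ
        obtain ⟨p, hp1, hp2, hp3, hp4, hp5⟩ := hcr ψ hψ
        obtain ⟨hz, heq, hval, hder⟩ := hcr' ψ hψ
        obtain ⟨q, hq1, hq2, hq3, hq4, hq5⟩ := hcrc (zs ψ) (Rc_subU hρ hτ hz.mem)
        have hw : q.wt = c.wt := by rw [← pb_wt q, hq1]
        have hbq : q.bl = false := by rw [← pb_bl q, hq1, hb]
        refine ⟨.br p q, ?_, hp2, ?_, ?_, ?_⟩
        · simp [PB.shape, hp1, hq1]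
        · refine ⟨hp3, hq3, ?_, ?_⟩
          · intro h
            rw [hbq] at h
            exact absurd h (by simp)
          · intro _
            refine ⟨?_, ?_⟩
            · rw [hq2]
              exact hz
            · rw [hw, hq2, hp2, ← add_assoc, ← hq5.deriv]
              exact heq
        · simp only [PB.vl]
          rw [hw, hq2, hp2, hp4, hval, qq, hq4, hbq]
          simp [vt]
        · simp only [PB.gs]
          rw [hq2, hp2]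
          exact hp5.add hder
    · obtain ⟨A', hG', hA'⟩ := h2 c.nc c.ne (XX c) Fc Ac hGc hAc c.wt
      obtain ⟨A'', hA''⟩ := hpx t.ne (c.ne + 1) (XX t) (stpb true c.wt (XX c)) F _ A A' hA hA'
      refine ⟨fun ψ => F ψ + (Fc 0 + s 0 ψ + π * Complex.I), A'', ?_, ?_, ?_⟩
      · have := hp t.nc (XX t) (stpb true c.wt (XX c)) F _ hG hG'
        simpa only [XX, Tb.nc, hb] using this
      · have h3 : (Tb.br t c).ne = t.ne + (c.ne + 1) := by simp only [Tb.ne]; ring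
        rw [h3]
        simpa only [XX, hb] using hA''
      · intro ψ hψ
        obtain ⟨p, hp1, hp2, hp3, hp4, hp5⟩ := hcr ψ hψ
        obtain ⟨q, hq1, hq2, hq3, hq4, hq5⟩ := hcrc 0 m0
        have hw : q.wt = c.wt := by rw [← pb_wt q, hq1]
        have hbq : q.bl = true := by rw [← pb_bl q, hq1, hb]
        have hsd : DifferentiableAt ℂ (fun w => s 0 w) ψ := by
          have h4 : DifferentiableOn ℂ (fun w => s 0 w) (Rc (3 * ρ) (3 * τ)) := by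
            have h5 : DifferentiableOn ℂ (fun w : ℂ => ((0 : ℂ), w)) (Rc (3 * ρ) (3 * τ)) :=
              ((differentiable_const (0 : ℂ)).prodMk differentiable_id).differentiableOn
            exact hK.san.comp h5 (fun w hw => ⟨m0, hw⟩)
          exact h4.differentiableAt (hopen.mem_nhds hψ)
        refine ⟨.br p q, ?_, hp2, ?_, ?_, ?_⟩
        · simp [PB.shape, hp1, hq1]
        · refine ⟨hp3, hq3, ?_, ?_⟩
          · intro _
            exact hq2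
          · intro h
            rw [hbq] at h
            exact absurd h (by simp)
        · simp only [PB.vl]
          rw [hq2, hp2, hp4, hq4, hbq]
          simp only [vt, if_true]
          ring
        · simp only [PB.gs]
          rw [hq2, hp2]
          have h6 : HasDerivAt (fun ψ => Fc 0 + s 0 ψ + π * Complex.I)
              (deriv (fun w => s 0 w) ψ) ψ :=
            (hsd.hasDerivAt.const_add (Fc 0)).add_const _
          exact hp5.add h6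

theorem mainb : S_KER → S_KXC → S_STEPU → S_STEPB → S_PRU → S_PRDX → S_MAINB := by
  rintro ⟨ρ, τ, κ, c, s, dl, hK⟩ hKX hS hSB hP hPX
  obtain ⟨ρ₂, τ₂, hρ₂, hτ₂, Ak, hAk⟩ := hKX ρ τ κ c s dl hK
  refine ⟨ρ, τ, κ, c, s, dl, hK, ?_⟩
  obtain ⟨ε₀, K, hε, hε1, hK0, hre, h1, h2⟩ := hS ρ τ κ c s dl hK ρ₂ τ₂ Ak hρ₂ hτ₂ hAk
  obtain ⟨b1, b2⟩ := hSB ρ τ κ c s dl hK ρ₂ τ₂ Ak hρ₂ hτ₂ hAk ε₀ hε hε1 hre
  obtain ⟨h0, hp⟩ := hP ρ τ κ c s dl hK ε₀ hε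
  obtain ⟨h0x, hpx⟩ := hPX ρ₂ τ₂
  have hρ := hK.hρ.1
  have hτ := hK.hτ.1
  have m0 : (0 : ℂ) ∈ Rc (3 * ρ) (3 * τ) := by
    refine ⟨?_, ?_⟩
    · rw [Complex.zero_re, abs_zero]; linarith
    · rw [Complex.zero_im, abs_zero]; linarith
  refine ⟨K, hK0, ?_⟩
  intro t hB ht
  obtain ⟨hB1, hB2⟩ := hB
  obtain ⟨F, A, hG, hA, hcr⟩ := mainu_ind hK h0 hp h0x hpx h1 b1 t hB1
  rcases hb : t.bl with _ | _
  · obtain ⟨z, y, hz, heq, hy0, hux⟩ := h2 t.nc t.ne (XX t) F A ht hG hA t.wt (hB2 hb)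
    obtain ⟨p, hp1, hp2, hp3, hp4, hp5⟩ := hcr z (Rc_subU hρ hτ hz.mem)
    have hw : p.wt = t.wt := by rw [← pb_wt p, hp1]
    have hbp : p.bl = false := by rw [← pb_bl p, hp1, hb]
    refine ⟨p, y, hp1, hp3, ⟨?_, ?_⟩, hy0, ?_⟩
    · intro h
      rw [hbp] at h
      exact absurd h (by simp)
    · intro _
      refine ⟨?_, ?_⟩
      · rw [hp2]
        exact hz
      · rw [hw, hp2, ← hp5.deriv]
        exact heq
    · have e1 : vt p.bl p.wt p.rz + p.vl s = qq t.wt F z := by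
        rw [hbp, hw, hp2, ← hp4]
        simp [vt, qq]
      rw [e1]
      unfold JT
      rw [hb]
      exact hux
  · obtain ⟨y, hy0, hux⟩ := b2 t.nc t.ne (XX t) F A ht hG hA t.wt
    obtain ⟨p, hp1, hp2, hp3, hp4, hp5⟩ := hcr 0 m0
    have hw : p.wt = t.wt := by rw [← pb_wt p, hp1]
    have hbp : p.bl = true := by rw [← pb_bl p, hp1, hb]
    refine ⟨p, y, hp1, hp3, ⟨?_, ?_⟩, hy0, ?_⟩
    · intro _
      exact hp2
    · intro h
      rw [hbp] at h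
      exact absurd h (by simp)
    · have e1 : vt p.bl p.wt p.rz + p.vl s = F 0 + π * Complex.I := by
        rw [hbp, ← hp4]
        simp only [vt, if_true]
        ring
      rw [e1]
      unfold JT
      rw [hb]
      exact hux

end Pool.Agent.TH563.UV
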