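import Pool.Agent.TH563.UV.Defs
import Pool.Agent.W719.AR.Geo

/-!
# Highly twisted arborescent links with crossing circles: statements
-/

set_option autoImplicit false

namespace Pool.Agent.TH563.UV

open Finset Filter Topology Metric
open Pool.Agent.W711.HT hiding XX
open Pool.Agent.W719.AX (UX GX KXD)
open Pool.Agent.W719.AR (Fl flS)
open scoped Real

/-! ### The recursion -/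

/-- the functions of the recursion: `X` is a product of `t` rotated functions -/
structure GoodU (ρ τ κ ε₀ : ℝ) (s : ℂ → ℂ → ℂ) (t : ℕ) (X : ℕ → ℂ → ℂ) (F : ℂ → ℂ) : Prop where
  an : ∀ N, Differentiable ℂ (X N)
  ev : ∀ N ψ, X N (-ψ) = X N ψ
  pos : 0 ≤ (F 0).re
  Fan : DifferentiableOn ℂ F (Rc (3 * ρ) (3 * τ))
  Fev : ∀ ψ ∈ Rc (3 * ρ) (3 * τ), F (-ψ) = F ψ
  Fcl : ∀ ψ ∈ Rc (3 * ρ) (3 * τ), ‖F ψ - F 0 - t * (s 0 ψ - s 0 0)‖ ≤ t * ε₀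
  mw : MW X F (Rc (2 * ρ) (2 * τ))
  gl1 : ∀ᶠ N : ℕ in atTop, ∀ x y : ℝ, ρ ≤ |x| → |x| ≤ π → |y| ≤ 1 / N →
    ‖X N (x + y * Complex.I)‖ ≤ Real.exp (N * ((F 0).re - t * (κ / 2)))

/-- the constant function one, and products -/
def S_PRU : Prop := ∀ (ρ τ κ c : ℝ) (s dl : ℂ → ℂ → ℂ), KD ρ τ κ c s dl → ∀ ε₀ : ℝ, 0 < ε₀ →
    GoodU ρ τ κ ε₀ s 0 (fun _ _ => 1) (fun _ => 0) ∧
    ∀ (t : ℕ) (X Y : ℕ → ℂ → ℂ) (F G : ℂ → ℂ), GoodU ρ τ κ ε₀ s t X F →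
      GoodU ρ τ κ ε₀ s 1 Y G →
      GoodU ρ τ κ ε₀ s (t + 1) (fun N ψ => X N ψ * Y N ψ) (fun ψ => F ψ + G ψ)

/-- the critical point -/
structure CPu (ρ τ r₀ : ℝ) (z : ℂ) : Prop where
  mem : z ∈ Rc ρ τ
  im : 0 < z.im
  sm : ‖z‖ ≤ r₀

/-- existence and properties of the critical points -/
def S_CPU : Prop := ∀ (ρ τ κ c : ℝ) (s dl : ℂ → ℂ → ℂ), KD ρ τ κ c s dl → ∀ r₀ : ℝ, 0 < r₀ →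
  ∃ ε₀ K : ℝ, 0 < ε₀ ∧ ε₀ ≤ κ / 16 ∧ 0 < K ∧
    (∀ (t : ℕ) (F : ℂ → ℂ), 1 ≤ t → DifferentiableOn ℂ F (Rc (3 * ρ) (3 * τ)) →
      (∀ ψ ∈ Rc (3 * ρ) (3 * τ), F (-ψ) = F ψ) →
      (∀ ψ ∈ Rc (3 * ρ) (3 * τ), ‖F ψ - F 0 - t * (s 0 ψ - s 0 0)‖ ≤ t * ε₀) →
      ∀ x : ℝ, |x| ≤ ρ → (F x).re ≤ (F 0).re - c / 4 * x ^ 2) ∧
    ∀ (t : ℕ) (F : ℂ → ℂ), DifferentiableOn ℂ F (Rc (3 * ρ) (3 * τ)) →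
      (∀ ψ ∈ Rc (3 * ρ) (3 * τ), F (-ψ) = F ψ) →
      (∀ ψ ∈ Rc (3 * ρ) (3 * τ), ‖F ψ - F 0 - t * (s 0 ψ - s 0 0)‖ ≤ t * ε₀) →
      ∀ a : ℤ,
        (K ^ 2 ≤ ((t + 1 : ℕ) : ℝ) ^ 2 + (a : ℝ) ^ 2 →
          ∃ (F' : ℂ → ℂ) (zs : ℂ → ℂ), DifferentiableOn ℂ F' (Rc (3 * ρ) (3 * τ)) ∧
          DifferentiableOn ℂ zs (Rc (3 * ρ) (3 * τ)) ∧
          (∀ ψ ∈ Rc (3 * ρ) (3 * τ), F' (-ψ) = F' ψ) ∧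
          (∀ ψ ∈ Rc (3 * ρ) (3 * τ), ‖F' ψ - F' 0 - (s 0 ψ - s 0 0)‖ ≤ ε₀) ∧
          (∀ ψ ∈ Rc (3 * ρ) (3 * τ), ‖F' ψ - F 0 - s 0 ψ‖ ≤ κ / 16) ∧
          ∀ ψ' ∈ Rc (3 * ρ) (3 * τ), CPu ρ τ r₀ (zs ψ') ∧
            SAD a (fun w => F w + s w ψ') ρ (zs ψ') ∧
            Complex.I * a * zs ψ' / (2 * π) + Complex.I + deriv F (zs ψ') +
              deriv (fun w => s w ψ') (zs ψ') = 0 ∧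
            F' ψ' = qq a F (zs ψ') + s (zs ψ') ψ' ∧
            HasDerivAt F' (deriv (fun w => s (zs ψ') w) ψ') ψ') ∧
        (1 ≤ t → K ^ 2 ≤ (t : ℝ) ^ 2 + (a : ℝ) ^ 2 → ∃ z : ℂ, CPu ρ τ r₀ z ∧ SAD a F ρ z ∧
          Complex.I * a * z / (2 * π) + Complex.I + deriv F z = 0 ∧
          ‖qq a F z - F 0‖ ≤ κ / 16)

/-- the induction step and the last step at a vertex without circle -/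
def S_STEPU : Prop := ∀ (ρ τ κ c : ℝ) (s dl : ℂ → ℂ → ℂ), KD ρ τ κ c s dl →
  ∀ (ρ₂ τ₂ : ℝ) (Ak : ℕ → ℂ × ℂ → ℂ), ρ₂ ≤ ρ → τ₂ ≤ τ → KXD ρ₂ τ₂ s Ak →
  ∃ ε₀ K : ℝ, 0 < ε₀ ∧ ε₀ ≤ κ / 16 ∧ 0 < K ∧
    (∀ (t : ℕ) (F : ℂ → ℂ), 1 ≤ t → DifferentiableOn ℂ F (Rc (3 * ρ) (3 * τ)) →
      (∀ ψ ∈ Rc (3 * ρ) (3 * τ), F (-ψ) = F ψ) →
      (∀ ψ ∈ Rc (3 * ρ) (3 * τ), ‖F ψ - F 0 - t * (s 0 ψ - s 0 0)‖ ≤ t * ε₀) →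
      ∀ x : ℝ, |x| ≤ ρ → (F x).re ≤ (F 0).re - c / 4 * x ^ 2) ∧
    (∀ (t m : ℕ) (X : ℕ → ℂ → ℂ) (F : ℂ → ℂ) (A : ℕ → ℂ → ℂ),
      GoodU ρ τ κ ε₀ s t X F → GX ρ₂ τ₂ m X F A →
      ∀ a : ℤ, K ^ 2 ≤ ((t + 1 : ℕ) : ℝ) ^ 2 + (a : ℝ) ^ 2 →
        ∃ (F' : ℂ → ℂ) (zs : ℂ → ℂ) (A' : ℕ → ℂ → ℂ),
        GoodU ρ τ κ ε₀ s 1 (stpb false a X) F' ∧ GX ρ₂ τ₂ (m + 1) (stpb false a X) F' A' ∧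
        ∀ ψ' ∈ Rc (3 * ρ) (3 * τ), CPu ρ τ (1 / 10) (zs ψ') ∧
          Complex.I * a * zs ψ' / (2 * π) + Complex.I + deriv F (zs ψ') +
            deriv (fun w => s w ψ') (zs ψ') = 0 ∧
          F' ψ' = qq a F (zs ψ') + s (zs ψ') ψ' ∧
          HasDerivAt F' (deriv (fun w => s (zs ψ') w) ψ') ψ') ∧
    (∀ (t m : ℕ) (X : ℕ → ℂ → ℂ) (F : ℂ → ℂ) (A : ℕ → ℂ → ℂ), 1 ≤ t →
      GoodU ρ τ κ ε₀ s t X F → GX ρ₂ τ₂ m X F A →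
      ∀ a : ℤ, K ^ 2 ≤ (t : ℝ) ^ 2 + (a : ℝ) ^ 2 → ∃ (z : ℂ) (y : ℕ → ℂ), CPu ρ τ (1 / 10) z ∧
        Complex.I * a * z / (2 * π) + Complex.I + deriv F z = 0 ∧ y 0 ≠ 0 ∧
        UX (fun N (_ : Unit) => (N : ℂ) ^ (2 * m) * (Real.sqrt N : ℂ) * (-1) ^ (N * (m + 1)) *
          Complex.exp (-(N * qq a F z)) * upp (1 / N) fun ψ => Eb false a N ψ * X N ψ * kr N ψ)
          (fun k _ => y k) Set.univ)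

/-- the induction step and the last step at a vertex with a circle: the critical point is `0`;
the summand `π i` replaces the sign `(-1)^N` of `kr` -/
def S_STEPB : Prop := ∀ (ρ τ κ c : ℝ) (s dl : ℂ → ℂ → ℂ), KD ρ τ κ c s dl →
  ∀ (ρ₂ τ₂ : ℝ) (Ak : ℕ → ℂ × ℂ → ℂ), ρ₂ ≤ ρ → τ₂ ≤ τ → KXD ρ₂ τ₂ s Ak →
  ∀ ε₀ : ℝ, 0 < ε₀ → ε₀ ≤ κ / 16 →
    (∀ (t : ℕ) (F : ℂ → ℂ), 1 ≤ t → DifferentiableOn ℂ F (Rc (3 * ρ) (3 * τ)) →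
      (∀ ψ ∈ Rc (3 * ρ) (3 * τ), F (-ψ) = F ψ) →
      (∀ ψ ∈ Rc (3 * ρ) (3 * τ), ‖F ψ - F 0 - t * (s 0 ψ - s 0 0)‖ ≤ t * ε₀) →
      ∀ x : ℝ, |x| ≤ ρ → (F x).re ≤ (F 0).re - c / 4 * x ^ 2) →
    (∀ (t m : ℕ) (X : ℕ → ℂ → ℂ) (F : ℂ → ℂ) (A : ℕ → ℂ → ℂ),
      GoodU ρ τ κ ε₀ s t X F → GX ρ₂ τ₂ m X F A → ∀ a : ℤ, ∃ A' : ℕ → ℂ → ℂ,
        GoodU ρ τ κ ε₀ s 1 (stpb true a X) (fun ψ => F 0 + s 0 ψ + π * Complex.I) ∧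
        GX ρ₂ τ₂ (m + 1) (stpb true a X) (fun ψ => F 0 + s 0 ψ + π * Complex.I) A') ∧
    (∀ (t m : ℕ) (X : ℕ → ℂ → ℂ) (F : ℂ → ℂ) (A : ℕ → ℂ → ℂ), 1 ≤ t →
      GoodU ρ τ κ ε₀ s t X F → GX ρ₂ τ₂ m X F A → ∀ a : ℤ, ∃ y : ℕ → ℂ, y 0 ≠ 0 ∧
        UX (fun N (_ : Unit) => (N : ℂ) ^ (2 * m) * (Real.sqrt N : ℂ) * (-1) ^ (N * (m + 1)) *
          Complex.exp (-(N * (F 0 + π * Complex.I))) *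
          upp (1 / N) fun ψ => Eb true a N ψ * X N ψ * kr N ψ)
          (fun k _ => y k) Set.univ)

end Pool.Agent.TH563.UV
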